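import Pool.Agent.Helper65.GDST.Defs

set_option autoImplicit false

open Cardinal Ordinal Set Filter Topology

universe u

namespace Pool.Agent.Helper65.GDST

section Cardinal

variable {κ : Cardinal.{u}}

lemma mk_L (κ : Cardinal.{u}) : #κ.ord.ToType = κ := mk_ord_toType κ

lemma mk_Iio_lt (a : κ.ord.ToType) : #(Iio a) < κ := by
  have h := Cardinal.mk_Iio_lt a (by rw [mk_L, type_toType])
  rwa [mk_L] at h

lemma GoodCardinal.aleph0_le (h : GoodCardinal κ) : ℵ₀ ≤ κ := h.1.le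

lemma GoodCardinal.two_pow_le (h : GoodCardinal κ) {μ : Cardinal.{u}} (hμ : μ < κ) :
    2 ^ μ ≤ κ := by
  have h1 := le_powerlt (2 : Cardinal.{u}) hμ
  rwa [h.2.2] at h1

lemma noMax (h : ℵ₀ ≤ κ) : NoMaxOrder κ.ord.ToType := Cardinal.noMaxOrder h

lemma cof_L (h : κ.IsRegular) : Order.cof κ.ord.ToType = κ := by
  rw [Ordinal.cof_toType, h.cof_ord]

/-- a family of fewer than `κ` elements of `κ` has a strict upper bound -/
lemma exists_bound (h : κ.IsRegular) {ι : Type u} (hι : #ι < κ) (f : ι → κ.ord.ToType) :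
    ∃ b, ∀ i, f i < b := by
  by_contra hcon
  push Not at hcon
  have h1 : IsCofinal (range f) := by
    intro a
    obtain ⟨i, hi⟩ := hcon a
    exact ⟨f i, ⟨i, rfl⟩, hi⟩
  have h2 := Order.cof_le h1
  rw [cof_L h] at h2
  exact absurd (lt_of_le_of_lt (h2.trans mk_range_le) hι) (lt_irrefl _)

lemma mk_fun_le (h : GoodCardinal κ) (a : κ.ord.ToType) :
    #(Iio a → κ.ord.ToType) ≤ κ := by
  classical
  -- every function is bounded
  have hb : ∀ f : Iio a → κ.ord.ToType, ∃ b, ∀ i, f i < b := fun f =>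
    exists_bound h.2.1 (mk_Iio_lt a) f
  choose b hb using hb
  let g : (Iio a → κ.ord.ToType) → Σ c : κ.ord.ToType, (Iio a → Iio c) := fun f =>
    ⟨b f, fun i => ⟨f i, hb f i⟩⟩
  have hg : Function.Injective g := by
    intro f f' hff
    funext i
    have h1 : b f = b f' := congrArg Sigma.fst hff
    have h2 := (Sigma.mk.inj_iff.1 hff).2
    have key : ∀ (c c' : κ.ord.ToType) (hc : c = c') (p : Iio a → Iio c) (q : Iio a → Iio c'),
        HEq p q → (p i : κ.ord.ToType) = q i := by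
      intro c c' hc p q hpq
      subst hc
      rw [eq_of_heq hpq]
    exact key _ _ h1 _ _ h2
  refine (mk_le_of_injective hg).trans ?_
  rw [mk_sigma]
  refine (sum_le_mk_mul_iSup _).trans ?_
  rw [mk_L]
  refine mul_le_of_le h.aleph0_le le_rfl ?_
  refine ciSup_le' ?_
  intro c
  rw [← power_def]
  calc #(Iio c) ^ #(Iio a) ≤ (2 ^ #(Iio c)) ^ #(Iio a) :=
        power_le_power_right (cantor _).le
    _ = 2 ^ (#(Iio c) * #(Iio a)) := (power_mul ..).symm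
    _ ≤ κ := h.two_pow_le (mul_lt_of_lt h.aleph0_le (mk_Iio_lt c) (mk_Iio_lt a))

lemma mk_sigma_fun_le (h : GoodCardinal κ) :
    #(Σ a : κ.ord.ToType, (Iio a → κ.ord.ToType)) ≤ κ := by
  rw [mk_sigma]
  refine (sum_le_mk_mul_iSup _).trans ?_
  rw [mk_L]
  refine mul_le_of_le h.aleph0_le le_rfl ?_
  exact ciSup_le' (fun a => mk_fun_le h a)

end Cardinal

section Cyl

variable {κ : Cardinal.{u}}

lemma mem_cyl_self (x : GB κ) (a : κ.ord.ToType) : x ∈ cyl x a := fun _ _ => rfl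

lemma cyl_eq_of_mem {x y : GB κ} {a : κ.ord.ToType} (h : y ∈ cyl x a) : cyl x a = cyl y a := by
  ext z
  constructor
  · intro hz i hi
    rw [hz i hi, h i hi]
  · intro hz i hi
    rw [hz i hi, h i hi]

lemma cyl_anti {x : GB κ} {a b : κ.ord.ToType} (h : a ≤ b) : cyl x b ⊆ cyl x a :=
  fun _ hy i hi => hy i (lt_of_lt_of_le hi h)

lemma isOpen_cyl (x : GB κ) (a : κ.ord.ToType) : IsOpen (cyl x a) :=
  TopologicalSpace.isOpen_generateFrom_of_mem ⟨x, a, rfl⟩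

lemma isClopen_cyl (x : GB κ) (a : κ.ord.ToType) : IsClopen (cyl x a) := by
  refine ⟨⟨?_⟩, isOpen_cyl x a⟩
  have : (cyl x a)ᶜ = ⋃ y ∈ (cyl x a)ᶜ, cyl y a := by
    ext z
    simp only [mem_iUnion, exists_prop]
    constructor
    · intro hz
      exact ⟨z, hz, mem_cyl_self z a⟩
    · rintro ⟨y, hy, hz⟩ hzx
      apply hy
      rw [cyl_eq_of_mem hzx, ← cyl_eq_of_mem hz]
      exact mem_cyl_self y a
  rw [this]
  exact isOpen_biUnion (fun y _ => isOpen_cyl y a)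

lemma isBasis_cyl (hne : Nonempty κ.ord.ToType) :
    TopologicalSpace.IsTopologicalBasis {N | ∃ (x : GB κ) (a : κ.ord.ToType), N = cyl x a} where
  exists_subset_inter := by
    rintro _ ⟨x, a, rfl⟩ _ ⟨y, b, rfl⟩ z hz
    refine ⟨cyl z (max a b), ⟨z, _, rfl⟩, mem_cyl_self _ _, ?_⟩
    rw [cyl_eq_of_mem hz.1, cyl_eq_of_mem hz.2]
    exact subset_inter (cyl_anti (le_max_left _ _)) (cyl_anti (le_max_right _ _))
  sUnion_eq := by
    obtain ⟨a⟩ := hne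
    rw [eq_univ_iff_forall]
    intro x
    exact ⟨cyl x a, ⟨x, a, rfl⟩, mem_cyl_self x a⟩
  eq_generateFrom := rfl

lemma exists_cyl_subset (hne : Nonempty κ.ord.ToType) {U : Set (GB κ)} (hU : IsOpen U)
    {x : GB κ} (hx : x ∈ U) : ∃ a, cyl x a ⊆ U := by
  obtain ⟨_, ⟨y, a, rfl⟩, hxy, hsub⟩ := (isBasis_cyl hne).exists_subset_of_mem_open hx hU
  refine ⟨a, ?_⟩
  rwa [cyl_eq_of_mem hxy] at hsub

/-- the trace of a cylinder on a subspace -/
def cylS {X : Set (GB κ)} (x : GB κ) (a : κ.ord.ToType) : Set X := {y | (y : GB κ) ∈ cyl x a}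

lemma isClopen_cylS {X : Set (GB κ)} (x : GB κ) (a : κ.ord.ToType) :
    IsClopen (cylS (X := X) x a) :=
  (isClopen_cyl x a).preimage continuous_subtype_val

lemma exists_cylS_subset (hne : Nonempty κ.ord.ToType) {X : Set (GB κ)} {U : Set X}
    (hU : IsOpen U) {x : X} (hx : x ∈ U) : ∃ a, cylS (x : GB κ) a ⊆ U := by
  obtain ⟨V, hV, rfl⟩ := isOpen_induced_iff.1 hU
  obtain ⟨a, ha⟩ := exists_cyl_subset hne hV hx
  exact ⟨a, fun y hy => ha hy⟩

/-- the set of all traces of cylinders -/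
def cylSets (X : Set (GB κ)) : Set (Set X) := {B | ∃ x a, B = cylS x a}

lemma mk_cylSets_le (h : GoodCardinal κ) (X : Set (GB κ)) : #(cylSets X) ≤ κ := by
  classical
  have hne : Nonempty κ.ord.ToType := by
    rw [← mk_ne_zero_iff, mk_L]
    exact (lt_of_lt_of_le aleph0_pos h.aleph0_le).ne'
  obtain ⟨c⟩ := hne
  let g : (Σ a : κ.ord.ToType, (Iio a → κ.ord.ToType)) → Set X := fun p =>
    cylS (fun i => if hi : i < p.1 then p.2 ⟨i, hi⟩ else c) p.1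
  have hsub : cylSets X ⊆ range g := by
    rintro _ ⟨x, a, rfl⟩
    refine ⟨⟨a, fun i => x i⟩, ?_⟩
    ext y
    simp only [g, cylS, cyl, mem_ofPred_eq]
    constructor
    · intro hy i hi
      have := hy i hi
      simpa [hi] using this
    · intro hy i hi
      simp [hi, hy i hi]
  exact (mk_le_mk_of_subset hsub).trans (mk_range_le.trans (mk_sigma_fun_le h))

end Cyl

/-- every open set is a union of at most `κ` clopen sets -/
def ClopenBase (κ : Cardinal.{u}) (X : Type u) [TopologicalSpace X] : Prop :=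
  ∀ U : Set X, IsOpen U → ∃ S : Set (Set X), #S ≤ κ ∧ (∀ B ∈ S, IsClopen B) ∧ U = ⋃₀ S

lemma nonempty_L {κ : Cardinal.{u}} (h : ℵ₀ ≤ κ) : Nonempty κ.ord.ToType := by
  rw [← mk_ne_zero_iff, mk_L]
  exact (lt_of_lt_of_le aleph0_pos h).ne'

lemma clopenBase_subspace {κ : Cardinal.{u}} (h : GoodCardinal κ) (X : Set (GB κ)) :
    ClopenBase κ X := by
  intro U hU
  refine ⟨{B | B ∈ cylSets X ∧ B ⊆ U}, ?_, ?_, ?_⟩
  · exact (mk_le_mk_of_subset (fun B hB => hB.1)).trans (mk_cylSets_le h X)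
  · rintro _ ⟨⟨x, a, rfl⟩, _⟩
    exact isClopen_cylS x a
  · ext x
    constructor
    · intro hx
      obtain ⟨a, ha⟩ := exists_cylS_subset (nonempty_L h.aleph0_le) hU hx
      exact ⟨cylS x a, ⟨⟨x, a, rfl⟩, ha⟩, mem_cyl_self _ _⟩
    · rintro ⟨B, ⟨_, hB⟩, hx⟩
      exact hB hx

section Sigma

variable {κ : Cardinal.{u}} {X : Type u} [TopologicalSpace X]

lemma sigma_one {A : Set X} : A ∈ SigmaClass κ X 1 ↔ IsOpen A := by
  rw [SigmaClass]
  simp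

lemma sigma_iff {ξ : Ordinal.{u}} (hξ : ξ ≠ 1) {A : Set X} :
    A ∈ SigmaClass κ X ξ ↔ ∃ S : Set (Set X), #S ≤ κ ∧
      (∀ B ∈ S, ∃ η : Ordinal.{u}, 1 ≤ η ∧ η < ξ ∧ Bᶜ ∈ SigmaClass κ X η) ∧ A = ⋃₀ S := by
  rw [SigmaClass, if_neg hξ]
  simp only [mem_ofPred_eq, exists_prop, and_assoc]

lemma sigma_mono (hX : ClopenBase κ X) {η ξ : Ordinal.{u}} (h1 : 1 ≤ η) (h : η ≤ ξ) :
    SigmaClass κ X η ⊆ SigmaClass κ X ξ := by
  intro A hA
  rcases h.eq_or_lt with rfl | hlt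
  · exact hA
  have hξ : ξ ≠ 1 := (lt_of_le_of_lt h1 hlt).ne'
  rw [sigma_iff hξ]
  rcases eq_or_ne η 1 with rfl | hη
  · rw [sigma_one] at hA
    obtain ⟨S, hS, hcl, hAS⟩ := hX A hA
    refine ⟨S, hS, fun B hB => ⟨1, le_rfl, hlt, ?_⟩, hAS⟩
    rw [sigma_one]
    exact (hcl B hB).compl.isOpen
  · rw [sigma_iff hη] at hA
    obtain ⟨S, hS, hcl, hAS⟩ := hA
    refine ⟨S, hS, fun B hB => ?_, hAS⟩
    obtain ⟨ζ, h2, h3, h4⟩ := hcl B hB
    exact ⟨ζ, h2, h3.trans hlt, h4⟩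

lemma sigma_compl (hκ : ℵ₀ ≤ κ) {η ξ : Ordinal.{u}} (h1 : 1 ≤ η) (h : η < ξ) {A : Set X}
    (hA : Aᶜ ∈ SigmaClass κ X η) : A ∈ SigmaClass κ X ξ := by
  have hξ : ξ ≠ 1 := (lt_of_le_of_lt h1 h).ne'
  rw [sigma_iff hξ]
  refine ⟨{A}, ?_, ?_, by simp⟩
  · rw [mk_singleton]
    exact (one_lt_aleph0.le).trans hκ
  · intro B hB
    rw [mem_singleton_iff] at hB
    subst hB
    exact ⟨η, h1, h, hA⟩

lemma sigma_sUnion (hκ : ℵ₀ ≤ κ) {ξ : Ordinal.{u}} {S : Set (Set X)} (hS : #S ≤ κ)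
    (h : ∀ A ∈ S, A ∈ SigmaClass κ X ξ) : ⋃₀ S ∈ SigmaClass κ X ξ := by
  rcases eq_or_ne ξ 1 with rfl | hξ
  · rw [sigma_one]
    exact isOpen_sUnion (fun A hA => sigma_one.1 (h A hA))
  · have h' : ∀ A : S, ∃ T : Set (Set X), #T ≤ κ ∧
      (∀ B ∈ T, ∃ η : Ordinal.{u}, 1 ≤ η ∧ η < ξ ∧ Bᶜ ∈ SigmaClass κ X η) ∧
        (A : Set X) = ⋃₀ T := fun A => (sigma_iff hξ).1 (h A A.2)
    choose T hT1 hT2 hT3 using h'
    rw [sigma_iff hξ]
    refine ⟨⋃ A, T A, ?_, ?_, ?_⟩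
    · refine (mk_iUnion_le _).trans ?_
      refine mul_le_of_le hκ hS ?_
      exact ciSup_le' hT1
    · intro B hB
      obtain ⟨A, hA⟩ := mem_iUnion.1 hB
      exact hT2 A B hA
    · rw [sUnion_iUnion, sUnion_eq_iUnion]
      exact iUnion_congr (fun A => hT3 A)

lemma sigma_iUnion (hκ : ℵ₀ ≤ κ) {ξ : Ordinal.{u}} {ι : Type u} (hι : #ι ≤ κ)
    {A : ι → Set X} (h : ∀ i, A i ∈ SigmaClass κ X ξ) : (⋃ i, A i) ∈ SigmaClass κ X ξ := by
  rw [← sUnion_range]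
  refine sigma_sUnion hκ (mk_range_le.trans hι) ?_
  rintro _ ⟨i, rfl⟩
  exact h i

lemma sigma_univ (hX : ClopenBase κ X) {ξ : Ordinal.{u}} (h : 1 ≤ ξ) :
    Set.univ ∈ SigmaClass κ X ξ :=
  sigma_mono hX le_rfl h (sigma_one.2 isOpen_univ)

lemma sigma_empty (hX : ClopenBase κ X) {ξ : Ordinal.{u}} (h : 1 ≤ ξ) :
    ∅ ∈ SigmaClass κ X ξ :=
  sigma_mono hX le_rfl h (sigma_one.2 isOpen_empty)

lemma sigma_union (hκ : ℵ₀ ≤ κ) {ξ : Ordinal.{u}} {A B : Set X}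
    (hA : A ∈ SigmaClass κ X ξ) (hB : B ∈ SigmaClass κ X ξ) : A ∪ B ∈ SigmaClass κ X ξ := by
  have h : A ∪ B = ⋃₀ {A, B} := by simp
  rw [h]
  refine sigma_sUnion hκ ?_ ?_
  · refine (mk_insert_le).trans ?_
    rw [mk_singleton]
    refine le_trans ?_ hκ
    rw [one_add_one_eq_two]
    exact (natCast_lt_aleph0 (n := 2)).le
  · rintro C (rfl | hC)
    · exact hA
    · rw [mem_singleton_iff] at hC
      rw [hC]
      exact hB

lemma sigma_inter (hκ : ℵ₀ ≤ κ) (hX : ClopenBase κ X) {ξ : Ordinal.{u}} {A B : Set X}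
    (hA : A ∈ SigmaClass κ X ξ) (hB : B ∈ SigmaClass κ X ξ) : A ∩ B ∈ SigmaClass κ X ξ := by
  rcases eq_or_ne ξ 1 with rfl | hξ
  · rw [sigma_one] at *
    exact hA.inter hB
  · obtain ⟨S, hS, hcl, rfl⟩ := (sigma_iff hξ).1 hA
    obtain ⟨T, hT, hcl', rfl⟩ := (sigma_iff hξ).1 hB
    rw [sUnion_inter_sUnion, biUnion_eq_iUnion]
    refine sigma_iUnion hκ ?_ ?_
    · rw [mk_setProd]
      exact mul_le_of_le hκ hS hT
    · rintro ⟨⟨C, D⟩, hC, hD⟩
      obtain ⟨η, h1, h2, h3⟩ := hcl C hC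
      obtain ⟨η', h1', h2', h3'⟩ := hcl' D hD
      refine sigma_compl hκ (h1.trans (le_max_left η η')) (max_lt h2 h2') ?_
      simp only [compl_inter]
      exact sigma_union hκ (sigma_mono hX h1 (le_max_left _ _) h3)
        (sigma_mono hX h1' (le_max_right _ _) h3')

end Sigma

section Borel

variable {κ : Cardinal.{u}} {X : Type u} [TopologicalSpace X]

lemma one_lt_succ_ord (hκ : ℵ₀ ≤ κ) : (1 : Ordinal.{u}) < (Order.succ κ).ord := by
  rw [lt_ord, card_one]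
  exact lt_of_lt_of_le one_lt_aleph0 (hκ.trans (Order.le_succ κ))

lemma isBor_open (hκ : ℵ₀ ≤ κ) {A : Set X} (h : IsOpen A) : IsBor κ A :=
  ⟨1, le_rfl, one_lt_succ_ord hκ, sigma_one.2 h⟩

lemma IsBor.compl (hκ : ℵ₀ ≤ κ) {A : Set X} (h : IsBor κ A) : IsBor κ Aᶜ := by
  obtain ⟨ξ, h1, h2, h3⟩ := h
  refine ⟨Order.succ ξ, h1.trans (Order.le_succ ξ), ?_, ?_⟩
  · exact ((isSuccLimit_ord (hκ.trans (Order.le_succ κ))).succ_lt h2)
  · refine sigma_compl hκ h1 (Order.lt_succ ξ) ?_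
    rwa [compl_compl]

lemma isBor_iUnion (hκ : ℵ₀ ≤ κ) (hX : ClopenBase κ X) {ι : Type u} (hι : #ι ≤ κ)
    {A : ι → Set X} (h : ∀ i, IsBor κ (A i)) : IsBor κ (⋃ i, A i) := by
  choose ξ h1 h2 h3 using h
  rcases isEmpty_or_nonempty ι with he | hne
  · rw [iUnion_of_empty]
    exact isBor_open hκ isOpen_empty
  refine ⟨⨆ i, ξ i, ?_, ?_, ?_⟩
  · obtain ⟨i⟩ := hne
    exact (h1 i).trans (Ordinal.le_iSup ξ i)
  · refine Ordinal.iSup_lt_of_lt_cof ?_ h2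
    rw [(isRegular_succ hκ).cof_ord]
    exact lt_of_le_of_lt hι (Order.lt_succ κ)
  · exact sigma_iUnion hκ hι (fun i => sigma_mono hX (h1 i) (Ordinal.le_iSup ξ i) (h3 i))

lemma isBor_iInter (hκ : ℵ₀ ≤ κ) (hX : ClopenBase κ X) {ι : Type u} (hι : #ι ≤ κ)
    {A : ι → Set X} (h : ∀ i, IsBor κ (A i)) : IsBor κ (⋂ i, A i) := by
  have h1 : (⋂ i, A i) = (⋃ i, (A i)ᶜ)ᶜ := by simp
  rw [h1]
  exact (isBor_iUnion hκ hX hι (fun i => (h i).compl hκ)).compl hκ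

end Borel

/-- a monotone cofinal map from the cofinality of a limit ordinal -/
lemma exists_cofinal_map (ξ : Ordinal.{u}) :
    ∃ o : ξ.cof.ord.ToType → Ordinal.{u}, (∀ k, o k < ξ) ∧ (∀ k k', k ≤ k' → o k ≤ o k') ∧
      ∀ η < ξ, ∃ k, η ≤ o k := by
  obtain ⟨s, hs, hs'⟩ := Ordinal.exists_ord_cof_eq ξ.ToType
  rw [Ordinal.cof_toType] at hs'
  have hiso : typeLT ξ.cof.ord.ToType = typeLT s := by rw [type_toType, hs']
  obtain ⟨e⟩ := type_eq.1 hiso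
  refine ⟨fun k => (ToType.mk.symm (e k : ξ.ToType) : Iio ξ),
    fun k => (ToType.mk.symm (e k : ξ.ToType) : Iio ξ).2, ?_, ?_⟩
  · intro k k' hkk
    have h1 : e k ≤ e k' := by
      rcases hkk.eq_or_lt with h2 | h2
      · rw [h2]
      · exact (e.map_rel_iff.2 h2).le
    exact ToType.mk.symm.monotone h1
  · intro η hη
    obtain ⟨c, hc, hle⟩ := hs (ToType.mk ⟨η, hη⟩)
    refine ⟨e.symm ⟨c, hc⟩, ?_⟩
    have h1 : (⟨η, hη⟩ : Iio ξ) ≤ ToType.mk.symm c := by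
      have := ToType.mk.symm.monotone hle
      simpa using this
    simp only [e.apply_symm_apply]
    exact h1

lemma one_lt_of_isSuccLimit {ξ : Ordinal.{u}} (hξ : Order.IsSuccLimit ξ) : 1 < ξ := by
  have := hξ.bot_lt
  have h0 : Order.succ 0 < ξ := hξ.succ_lt this
  simpa using h0

end Pool.Agent.Helper65.GDST
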