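import Mathlib

set_option autoImplicit false

open Cardinal Ordinal Set Filter Topology

universe u

namespace Pool.Agent.Helper65.GDST

/-- The standing assumptions on the cardinal `λ`: uncountable, regular, `2^{<λ} = λ`. -/
def GoodCardinal (κ : Cardinal.{u}) : Prop := ℵ₀ < κ ∧ κ.IsRegular ∧ 2 ^< κ = κ

/-- The set `λ^λ` of functions from `λ` to `λ` (`κ.ord.ToType` is the well-ordered set `λ`). -/
def GB (κ : Cardinal.{u}) : Type u := κ.ord.ToType → κ.ord.ToType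

/-- The basic open set `N_s`, where `s` is the restriction of `x` to the ordinals below `a`. -/
def cyl {κ : Cardinal.{u}} (x : GB κ) (a : κ.ord.ToType) : Set (GB κ) :=
  {y | ∀ i < a, y i = x i}

/-- The bounded topology on `λ^λ`. -/
instance instTopologicalSpaceGB (κ : Cardinal.{u}) : TopologicalSpace (GB κ) :=
  TopologicalSpace.generateFrom {N | ∃ (x : GB κ) (a : κ.ord.ToType), N = cyl x a}

/-- The class of `Σ⁰_ξ` subsets of `X` (for `1 ≤ ξ`): the open sets for `ξ = 1`, and the unions of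
at most `λ` sets whose complements are `Σ⁰_η` for some `1 ≤ η < ξ`, for `ξ > 1`. -/
def SigmaClass (κ : Cardinal.{u}) (X : Type u) [TopologicalSpace X] (ξ : Ordinal.{u}) :
    Set (Set X) :=
  if ξ = 1 then {A | IsOpen A}
  else {A | ∃ S : Set (Set X), #S ≤ κ ∧
    (∀ B ∈ S, ∃ η : Ordinal.{u}, ∃ _ : 1 ≤ η ∧ η < ξ, Bᶜ ∈ SigmaClass κ X η) ∧ A = ⋃₀ S}
termination_by ξ
decreasing_by rename_i h; exact h.2

/-- `λ⁺`-Borel sets. -/
def IsBor (κ : Cardinal.{u}) {X : Type u} [TopologicalSpace X] (A : Set X) : Prop :=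
  ∃ ξ : Ordinal.{u}, 1 ≤ ξ ∧ ξ < (Order.succ κ).ord ∧ A ∈ SigmaClass κ X ξ

/-- `λ⁺`-Borel measurable functions. -/
def BorMeas (κ : Cardinal.{u}) (X Y : Type u) [TopologicalSpace X] [TopologicalSpace Y] :
    Set (X → Y) :=
  {f | ∀ U : Set Y, IsOpen U → IsBor κ (f ⁻¹' U)}

/-- The class `M_ξ(X, Y)`. -/
def Meas (κ : Cardinal.{u}) (X Y : Type u) [TopologicalSpace X] [TopologicalSpace Y]
    (ξ : Ordinal.{u}) : Set (X → Y) :=
  {f | ∀ U : Set Y, IsOpen U → f ⁻¹' U ∈ SigmaClass κ X ξ}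

/-- The class `M_{<ξ}(X, Y)`. -/
def MeasLT (κ : Cardinal.{u}) (X Y : Type u) [TopologicalSpace X] [TopologicalSpace Y]
    (ξ : Ordinal.{u}) : Set (X → Y) :=
  {f | ∃ η : Ordinal.{u}, 1 ≤ η ∧ η < ξ ∧ f ∈ Meas κ X Y η}

/-- `f = lim_{d ∈ D} F d` pointwise. -/
def IsLim {X Y : Type u} [TopologicalSpace Y] {D : Type u} [Preorder D] (F : D → X → Y)
    (f : X → Y) : Prop :=
  ∀ x, Tendsto (fun d => F d x) atTop (𝓝 (f x))

/-- The class of all `κ`-limits of families from the class `𝓕`; a `κ`-limit is a limit over the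
ordinal `κ`. -/
def LimOf {X Y : Type u} [TopologicalSpace Y] (μ : Cardinal.{u}) (F : Set (X → Y)) :
    Set (X → Y) :=
  {f | ∃ G : μ.ord.ToType → X → Y, (∀ i, G i ∈ F) ∧ IsLim G f}

/-- The class `\widehat{lim}^ξ_μ F`. -/
def HatLimOf (κ : Cardinal.{u}) {X Y : Type u} [TopologicalSpace X] (ξ : Ordinal.{u})
    (μ : Cardinal.{u}) (F : Set (X → Y)) : Set (X → Y) :=
  {f | ∃ G : μ.ord.ToType → X → Y, (∀ i, G i ∈ F) ∧
    ∃ C : μ.ord.ToType → Set X, (⋃ i, C i) = Set.univ ∧ (∀ i j, i ≤ j → C i ⊆ C j) ∧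
      (∀ i, C i ∈ SigmaClass κ X ξ) ∧ ∀ i j, i ≤ j → ∀ x ∈ C i, G j x = f x}

/-- The smallest class of functions `X → Y` which contains all continuous functions and is
closed under `μ`-limits for every regular `μ ≤ λ`. -/
def LimClosure (κ : Cardinal.{u}) (X Y : Type u) [TopologicalSpace X] [TopologicalSpace Y] :
    Set (X → Y) :=
  ⋂₀ {C | (∀ f : X → Y, Continuous f → f ∈ C) ∧
    ∀ μ : Cardinal.{u}, μ.IsRegular → μ ≤ κ → LimOf μ C ⊆ C}

end Pool.Agent.Helper65.GDST
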