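import Pool.Agent.Helper65.GDST.Basic

set_option autoImplicit false

open Cardinal Ordinal Set Filter Topology

universe u

namespace Pool.Agent.Helper65.GDST

/-- limits over arbitrary well-orders without maximum reduce to limits over regular cardinals -/
lemma mem_of_isLim {κ : Cardinal.{u}} {X Y : Type u} [TopologicalSpace Y] {C : Set (X → Y)}
    (hC : ∀ μ : Cardinal.{u}, μ.IsRegular → μ ≤ κ → LimOf μ C ⊆ C)
    {T : Type u} [LinearOrder T] [WellFoundedLT T] [NoMaxOrder T] [Nonempty T] (hT : #T ≤ κ)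
    {F : T → X → Y} (hF : ∀ t, F t ∈ C) {f : X → Y} (hf : IsLim F f) : f ∈ C := by
  obtain ⟨s, hs, hs'⟩ := Ordinal.exists_ord_cof_eq T
  have hreg : (Order.cof T).IsRegular := by
    have h1 : Order.IsSuccLimit (typeLT T) := by
      rw [← Ordinal.one_lt_cof_iff, Ordinal.cof_type, Order.one_lt_cof_iff]
      infer_instance
    have h2 := isRegular_cof h1
    rwa [Ordinal.cof_type] at h2
  have hle : Order.cof T ≤ κ := (Order.cof_le_cardinalMk T).trans hT
  have hiso : typeLT (Order.cof T).ord.ToType = typeLT s := by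
    rw [type_toType, hs']
  obtain ⟨e⟩ := type_eq.1 hiso
  refine hC _ hreg hle ⟨fun i => F (e i), fun i => hF _, ?_⟩
  intro x
  refine (hf x).comp ?_
  have := nonempty_L hreg.aleph0_le
  rw [tendsto_atTop_atTop]
  intro b
  obtain ⟨c, hc, hbc⟩ := hs b
  refine ⟨e.symm ⟨c, hc⟩, ?_⟩
  intro i hi
  have h1 : (⟨c, hc⟩ : s) ≤ e i := by
    rcases hi.eq_or_lt with h | h
    · rw [← h]
      simp
    · have h2 := e.map_rel_iff.2 h
      rw [e.apply_symm_apply] at h2
      exact h2.le
  exact hbc.trans h1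

section

variable {κ : Cardinal.{u}} {X Y : Type u} [TopologicalSpace X] [TopologicalSpace Y]

lemma continuous_mem_LimClosure {f : X → Y} (hf : Continuous f) : f ∈ LimClosure κ X Y := by
  rintro C ⟨hC, _⟩
  exact hC f hf

lemma LimClosure_closed (μ : Cardinal.{u}) (hμ : μ.IsRegular) (hle : μ ≤ κ) :
    LimOf μ (LimClosure κ X Y) ⊆ LimClosure κ X Y := by
  rintro f ⟨G, hG, hlim⟩ C hC
  exact hC.2 μ hμ hle ⟨G, fun i => hG i C hC, hlim⟩

lemma LimClosure_induct {P : Set (X → Y)} (h1 : ∀ f : X → Y, Continuous f → f ∈ P)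
    (h2 : ∀ μ : Cardinal.{u}, μ.IsRegular → μ ≤ κ → LimOf μ P ⊆ P) :
    LimClosure κ X Y ⊆ P :=
  fun _ hf => hf P ⟨h1, h2⟩

/-- the key transfinite induction -/
lemma trans_ind (hκ : ℵ₀ ≤ κ) (F : κ.ord.ToType → X → Y)
    (h0 : ∀ a, (∀ c, ¬ c < a) → F a ∈ LimClosure κ X Y)
    (h1 : ∀ a c, c < a → (∀ d < a, d ≤ c) → F c ∈ LimClosure κ X Y → F a ∈ LimClosure κ X Y)
    (h2 : ∀ a, (∃ c, c < a) → (∀ c < a, ∃ d < a, c < d) →
      ∀ x, ∃ c < a, ∀ d < a, c ≤ d → F d x = F a x) : ∀ a, F a ∈ LimClosure κ X Y := by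
  intro a
  induction a using WellFoundedLT.induction with
  | ind a ih =>
    by_cases he : ∀ c, ¬ c < a
    · exact h0 a he
    push Not at he
    by_cases hm : ∃ c, c < a ∧ ∀ d < a, d ≤ c
    · obtain ⟨c, hc, hd⟩ := hm
      exact h1 a c hc hd (ih c hc)
    push Not at hm
    have : NoMaxOrder (Iio a) := by
      refine ⟨fun c => ?_⟩
      obtain ⟨d, hd, hcd⟩ := hm c c.2
      exact ⟨⟨d, hd⟩, hcd⟩
    have : Nonempty (Iio a) := by
      obtain ⟨c, hc⟩ := he
      exact ⟨⟨c, hc⟩⟩
    refine mem_of_isLim (κ := κ) (C := LimClosure κ X Y) LimClosure_closed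
      (T := Iio a) ((mk_Iio_lt a).le) (F := fun c => F c) (fun c => ih c c.2) ?_
    intro x
    obtain ⟨c, hc, hcd⟩ := h2 a he hm x
    refine tendsto_const_nhds.congr' ?_
    rw [EventuallyEq, eventually_atTop]
    exact ⟨⟨c, hc⟩, fun d hd => (hcd d d.2 hd).symm⟩

lemma trans_ind_final (hκ : ℵ₀ ≤ κ) (F : κ.ord.ToType → X → Y)
    (hF : ∀ a, F a ∈ LimClosure κ X Y) (f : X → Y)
    (h : ∀ x, ∃ c, ∀ d, c ≤ d → F d x = f x) : f ∈ LimClosure κ X Y := by
  have := noMax hκ
  have := nonempty_L hκ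
  refine mem_of_isLim (κ := κ) (C := LimClosure κ X Y) LimClosure_closed
      (T := κ.ord.ToType) (mk_L κ).le hF ?_
  intro x
  obtain ⟨c, hc⟩ := h x
  refine tendsto_const_nhds.congr' ?_
  rw [EventuallyEq, eventually_atTop]
  exact ⟨c, fun d hd => (hc d hd).symm⟩

open Classical in
/-- the sets along which members of the closure can be glued -/
def Gluing (κ : Cardinal.{u}) (X Y : Type u) [TopologicalSpace X] [TopologicalSpace Y] :
    Set (Set X) :=
  {B | ∀ f ∈ LimClosure κ X Y, ∀ g ∈ LimClosure κ X Y, B.piecewise f g ∈ LimClosure κ X Y}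

lemma gluing_clopen {B : Set X} (hB : IsClopen B) : B ∈ Gluing κ X Y := by
  classical
  have step1 : ∀ g : X → Y, Continuous g → LimClosure κ X Y ⊆
      {f | B.piecewise f g ∈ LimClosure κ X Y} := by
    intro g hg
    refine LimClosure_induct ?_ ?_
    · intro f hf
      refine continuous_mem_LimClosure ?_
      refine hf.piecewise ?_ hg
      intro a ha
      rw [hB.frontier_eq] at ha
      exact absurd ha (notMem_empty a)
    · rintro μ hμ hle f ⟨G, hG, hlim⟩
      refine LimClosure_closed μ hμ hle ⟨fun i => B.piecewise (G i) g, hG, ?_⟩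
      intro x
      by_cases hx : x ∈ B
      · simpa [hx] using hlim x
      · simpa [hx] using tendsto_const_nhds
  intro f hf
  have step2 : LimClosure κ X Y ⊆ {g | B.piecewise f g ∈ LimClosure κ X Y} := by
    refine LimClosure_induct ?_ ?_
    · intro g hg
      exact step1 g hg hf
    · rintro μ hμ hle g ⟨G, hG, hlim⟩
      refine LimClosure_closed μ hμ hle ⟨fun i => B.piecewise f (G i), hG, ?_⟩
      intro x
      by_cases hx : x ∈ B
      · simpa [hx] using tendsto_const_nhds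
      · simpa [hx] using hlim x
  intro g hg
  exact step2 hg

lemma gluing_compl {B : Set X} (hB : B ∈ Gluing κ X Y) : Bᶜ ∈ Gluing κ X Y := by
  classical
  intro f hf g hg
  have h := hB g hg f hf
  have heq : Bᶜ.piecewise f g = B.piecewise g f := by
    rw [Set.piecewise_compl]
  convert h using 1
  rw [← heq]
  congr

lemma gluing_iUnion (hκ : ℵ₀ ≤ κ) {B : κ.ord.ToType → Set X} (hB : ∀ i, B i ∈ Gluing κ X Y) :
    (⋃ i, B i) ∈ Gluing κ X Y := by
  classical
  intro f hf g hg
  have hF : ∀ a, (⋃ i, ⋃ _ : i < a, B i).piecewise f g ∈ LimClosure κ X Y := by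
    refine trans_ind hκ (fun a => (⋃ i, ⋃ _ : i < a, B i).piecewise f g) ?_ ?_ ?_
    · intro a ha
      have : (⋃ i, ⋃ _ : i < a, B i) = ∅ := by
        simp only [iUnion_eq_empty]
        intro i hi
        exact absurd hi (ha i)
      have h2 : (⋃ i, ⋃ _ : i < a, B i).piecewise f g = g := by
        funext x
        rw [piecewise_eq_of_notMem]
        rw [this]
        exact notMem_empty x
      rw [h2]
      exact hg
    · intro a c hc hd hFc
      have h1 := hB c f hf _ hFc
      convert h1 using 1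
      funext x
      by_cases hx : x ∈ B c
      · have h2 : x ∈ (⋃ i, ⋃ _ : i < a, B i) := mem_iUnion₂.2 ⟨c, hc, hx⟩
        rw [piecewise_eq_of_mem _ _ _ h2, piecewise_eq_of_mem _ _ _ hx]
      · rw [piecewise_eq_of_notMem _ _ _ hx]
        by_cases h3 : x ∈ (⋃ i, ⋃ _ : i < c, B i)
        · obtain ⟨i, hi, hxi⟩ := mem_iUnion₂.1 h3
          have h2 : x ∈ (⋃ i, ⋃ _ : i < a, B i) := mem_iUnion₂.2 ⟨i, hi.trans hc, hxi⟩
          rw [piecewise_eq_of_mem _ _ _ h2, piecewise_eq_of_mem _ _ _ h3]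
        · have h2 : x ∉ (⋃ i, ⋃ _ : i < a, B i) := by
            intro h4
            obtain ⟨i, hi, hxi⟩ := mem_iUnion₂.1 h4
            rcases (hd i hi).eq_or_lt with h5 | h5
            · rw [h5] at hxi
              exact hx hxi
            · exact h3 (mem_iUnion₂.2 ⟨i, h5, hxi⟩)
          rw [piecewise_eq_of_notMem _ _ _ h2, piecewise_eq_of_notMem _ _ _ h3]
    · rintro a ⟨c₀, hc₀⟩ hm x
      by_cases hx : x ∈ (⋃ i, ⋃ _ : i < a, B i)
      · obtain ⟨i, hi, hxi⟩ := mem_iUnion₂.1 hx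
        obtain ⟨c, hc, hic⟩ := hm i hi
        refine ⟨c, hc, fun d hd hcd => ?_⟩
        have h2 : x ∈ (⋃ i, ⋃ _ : i < d, B i) := mem_iUnion₂.2 ⟨i, hic.trans_le hcd, hxi⟩
        simp only [piecewise_eq_of_mem _ _ _ h2, piecewise_eq_of_mem _ _ _ hx]
      · refine ⟨c₀, hc₀, fun d hd _ => ?_⟩
        have h2 : x ∉ (⋃ i, ⋃ _ : i < d, B i) := by
          intro h4
          obtain ⟨i, hi, hxi⟩ := mem_iUnion₂.1 h4
          exact hx (mem_iUnion₂.2 ⟨i, hi.trans hd, hxi⟩)
        simp only [piecewise_eq_of_notMem _ _ _ h2, piecewise_eq_of_notMem _ _ _ hx]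
  have hfin := trans_ind_final hκ (fun a => (⋃ i, ⋃ _ : i < a, B i).piecewise f g) hF
    ((⋃ i, B i).piecewise f g) (by
      intro x
      have := noMax hκ
      obtain ⟨c₀⟩ := nonempty_L hκ
      by_cases hx : x ∈ (⋃ i, B i)
      · obtain ⟨i, hxi⟩ := mem_iUnion.1 hx
        obtain ⟨c, hic⟩ := exists_gt i
        refine ⟨c, fun d hcd => ?_⟩
        have h2 : x ∈ (⋃ i, ⋃ _ : i < d, B i) := mem_iUnion₂.2 ⟨i, hic.trans_le hcd, hxi⟩
        simp only [piecewise_eq_of_mem _ _ _ h2, piecewise_eq_of_mem _ _ _ hx]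
      · refine ⟨c₀, fun d _ => ?_⟩
        have h2 : x ∉ (⋃ i, ⋃ _ : i < d, B i) := by
          intro h4
          obtain ⟨i, hi, hxi⟩ := mem_iUnion₂.1 h4
          exact hx (mem_iUnion.2 ⟨i, hxi⟩)
        simp only [piecewise_eq_of_notMem _ _ _ h2, piecewise_eq_of_notMem _ _ _ hx])
  convert hfin

lemma gluing_sUnion (hκ : ℵ₀ ≤ κ) {S : Set (Set X)} (hS : #S ≤ κ)
    (hB : ∀ B ∈ S, B ∈ Gluing κ X Y) : ⋃₀ S ∈ Gluing κ X Y := by
  rcases S.eq_empty_or_nonempty with rfl | ⟨B₀, hB₀⟩
  · rw [sUnion_empty]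
    exact gluing_clopen isClopen_empty
  · have h1 : #S ≤ #κ.ord.ToType := by rwa [mk_L]
    obtain ⟨e⟩ := h1
    have : Nonempty S := ⟨⟨B₀, hB₀⟩⟩
    have hsurj := Function.invFun_surjective e.injective
    have h2 : ⋃₀ S = ⋃ i : κ.ord.ToType, ((Function.invFun e i : S) : Set X) := by
      rw [sUnion_eq_iUnion]
      exact (hsurj.iUnion_comp (fun B : S => (B : Set X))).symm
    rw [h2]
    exact gluing_iUnion hκ (fun i => hB _ (Function.invFun e i).2)

lemma gluing_sigma (hκ : ℵ₀ ≤ κ) (hX : ClopenBase κ X) (ξ : Ordinal.{u}) :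
    1 ≤ ξ → SigmaClass κ X ξ ⊆ Gluing κ X Y := by
  induction ξ using WellFoundedLT.induction with
  | ind ξ ih =>
    intro hξ A hA
    rcases eq_or_ne ξ 1 with rfl | hξ1
    · rw [sigma_one] at hA
      obtain ⟨S, hS, hcl, rfl⟩ := hX A hA
      exact gluing_sUnion hκ hS (fun B hB => gluing_clopen (hcl B hB))
    · rw [sigma_iff hξ1] at hA
      obtain ⟨S, hS, hcl, rfl⟩ := hA
      refine gluing_sUnion hκ hS (fun B hB => ?_)
      obtain ⟨η, h1, h2, h3⟩ := hcl B hB
      have := gluing_compl (ih η h2 h1 h3)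
      rwa [compl_compl] at this

lemma gluing_bor (hκ : ℵ₀ ≤ κ) (hX : ClopenBase κ X) {A : Set X} (hA : IsBor κ A) :
    A ∈ Gluing κ X Y := by
  obtain ⟨ξ, h1, _, h3⟩ := hA
  exact gluing_sigma hκ hX ξ h1 h3

/-- a function with at most `κ` values and Borel fibres is in the closure -/
lemma mem_of_small_range (hκ : ℵ₀ ≤ κ) (hX : ClopenBase κ X) (h : X → Y)
    (hr : #(range h) ≤ κ) (hb : ∀ y, IsBor κ (h ⁻¹' {y})) : h ∈ LimClosure κ X Y := by
  classical
  rcases isEmpty_or_nonempty X with hXe | ⟨⟨x₀⟩⟩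
  · exact continuous_mem_LimClosure (continuous_of_const (fun x => (hXe.false x).elim))
  set y₀ := h x₀
  have h1 : #(range h) ≤ #κ.ord.ToType := by rwa [mk_L]
  obtain ⟨e⟩ := h1
  have : Nonempty (range h) := ⟨⟨y₀, ⟨x₀, rfl⟩⟩⟩
  set v : κ.ord.ToType → Y := fun i => ((Function.invFun e i : range h) : Y) with hv
  have hvs : ∀ x, ∃ i, v i = h x := by
    intro x
    obtain ⟨i, hi⟩ := Function.invFun_surjective e.injective ⟨h x, ⟨x, rfl⟩⟩
    exact ⟨i, by rw [hv]; simp only [hi]⟩
  let F : κ.ord.ToType → X → Y := fun a x => if ∃ i < a, v i = h x then h x else y₀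
  have hF : ∀ a, F a ∈ LimClosure κ X Y := by
    refine trans_ind hκ F ?_ ?_ ?_
    · intro a ha
      have : F a = fun _ => y₀ := by
        funext x
        refine if_neg ?_
        rintro ⟨i, hi, _⟩
        exact ha i hi
      rw [this]
      exact continuous_mem_LimClosure continuous_const
    · intro a c hc hd hFc
      have h2 := gluing_bor (Y := Y) hκ hX (hb (v c)) (fun _ => v c)
        (continuous_mem_LimClosure continuous_const) (F c) hFc
      convert h2 using 1
      funext x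
      by_cases hx : x ∈ h ⁻¹' {v c}
      · rw [piecewise_eq_of_mem _ _ _ hx]
        have hx' : h x = v c := hx
        have h3 : ∃ i < a, v i = h x := ⟨c, hc, hx'.symm⟩
        simp only [F, if_pos h3, hx']
      · rw [piecewise_eq_of_notMem _ _ _ hx]
        have hx' : ¬ h x = v c := hx
        by_cases h4 : ∃ i < c, v i = h x
        · obtain ⟨i, hi, hvi⟩ := h4
          have h3 : ∃ i < a, v i = h x := ⟨i, hi.trans hc, hvi⟩
          have h4 : ∃ i < c, v i = h x := ⟨i, hi, hvi⟩
          simp only [F, if_pos h3, if_pos h4]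
        · have h3 : ¬ ∃ i < a, v i = h x := by
            rintro ⟨i, hi, hvi⟩
            rcases (hd i hi).eq_or_lt with h5 | h5
            · rw [h5] at hvi
              exact hx' hvi.symm
            · exact h4 ⟨i, h5, hvi⟩
          simp only [F, if_neg h3, if_neg h4]
    · rintro a ⟨c₀, hc₀⟩ hm x
      by_cases hx : ∃ i < a, v i = h x
      · obtain ⟨i, hi, hvi⟩ := hx
        obtain ⟨c, hc, hic⟩ := hm i hi
        refine ⟨c, hc, fun d hd hcd => ?_⟩
        have h3 : ∃ i < a, v i = h x := ⟨i, hi, hvi⟩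
        have h4 : ∃ i < d, v i = h x := ⟨i, hic.trans_le hcd, hvi⟩
        simp only [F, if_pos h3, if_pos h4]
      · refine ⟨c₀, hc₀, fun d hd _ => ?_⟩
        have h4 : ¬ ∃ i < d, v i = h x := by
          rintro ⟨i, hi, hvi⟩
          exact hx ⟨i, hi.trans hd, hvi⟩
        simp only [F, if_neg hx, if_neg h4]
  refine trans_ind_final hκ F hF h ?_
  intro x
  have := noMax hκ
  obtain ⟨i, hi⟩ := hvs x
  obtain ⟨c, hic⟩ := exists_gt i
  refine ⟨c, fun d hcd => ?_⟩
  have h4 : ∃ i < d, v i = h x := ⟨i, hic.trans_le hcd, hi⟩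
  simp only [F, if_pos h4]

/-- Borel measurable functions are closed under limits of length at most `κ` -/
lemma borMeas_lim (hκ : ℵ₀ ≤ κ) (hX : ClopenBase κ X) (hY : ClopenBase κ Y)
    (μ : Cardinal.{u}) (hμ : μ.IsRegular) (hle : μ ≤ κ) :
    LimOf μ (BorMeas κ X Y) ⊆ BorMeas κ X Y := by
  rintro f ⟨G, hG, hlim⟩ U hU
  obtain ⟨S, hS, hcl, rfl⟩ := hY U hU
  rw [preimage_sUnion, biUnion_eq_iUnion]
  refine isBor_iUnion hκ hX hS ?_
  rintro ⟨B, hB⟩
  have hBc := hcl B hB
  have := nonempty_L hμ.aleph0_le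
  have h1 : f ⁻¹' B = ⋃ i, ⋂ j : Ici i, G j.1 ⁻¹' B := by
    ext x
    simp only [mem_preimage, mem_iUnion, mem_iInter]
    constructor
    · intro hx
      have h2 := (hlim x).eventually (hBc.isOpen.mem_nhds hx)
      obtain ⟨i, hi⟩ := eventually_atTop.1 h2
      exact ⟨i, fun j => hi j j.2⟩
    · rintro ⟨i, hi⟩
      by_contra hx
      have h2 := (hlim x).eventually (hBc.compl.isOpen.mem_nhds hx)
      obtain ⟨k, hk⟩ := eventually_atTop.1 h2
      exact hk (max i k) (le_max_right _ _) (hi ⟨max i k, le_max_left i k⟩)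
  simp only
  rw [h1]
  refine isBor_iUnion hκ hX ((mk_L μ).le.trans hle) ?_
  intro i
  refine isBor_iInter hκ hX ?_ ?_
  · exact (mk_set_le _).trans ((mk_L μ).le.trans hle)
  · intro j
    exact hG j B hBc.isOpen

end

theorem borMeas_eq_limClosure {κ : Cardinal.{u}} (hκ : GoodCardinal κ) (X Y : Set (GB κ)) :
    BorMeas κ X Y = LimClosure κ X Y := by
  classical
  have hκ0 := hκ.aleph0_le
  have hX := clopenBase_subspace hκ X
  have hY := clopenBase_subspace hκ Y
  apply Subset.antisymm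
  · intro f hf
    rcases isEmpty_or_nonempty X with hXe | ⟨⟨x₀⟩⟩
    · exact continuous_mem_LimClosure (continuous_of_const (fun x => (hXe.false x).elim))
    -- representatives
    have hrep : ∀ (B : Set Y), ∃ y : Y, B.Nonempty → y ∈ B := by
      intro B
      by_cases h : B.Nonempty
      · obtain ⟨y, hy⟩ := h
        exact ⟨y, fun _ => hy⟩
      · exact ⟨f x₀, fun h' => absurd h' h⟩
    choose rep hrep using hrep
    have hrep' : ∀ (y : Y) (a : κ.ord.ToType), rep (cylS (y : GB κ) a) ∈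
        (cylS (y : GB κ) a : Set Y) :=
      fun y a => hrep _ ⟨y, mem_cyl_self _ _⟩
    have hne := nonempty_L hκ0
    have hnm := noMax hκ0
    refine mem_of_isLim (κ := κ) (C := LimClosure κ X Y) LimClosure_closed
      (T := κ.ord.ToType) (mk_L κ).le (F := fun a x => rep (cylS (f x : GB κ) a)) ?_ ?_
    · intro a
      refine mem_of_small_range hκ0 hX _ ?_ ?_
      · have hsub : range (fun x => rep (cylS (f x : GB κ) a)) ⊆ rep '' (cylSets Y) := by
          rintro _ ⟨x, rfl⟩
          exact ⟨_, ⟨_, _, rfl⟩, rfl⟩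
        exact (mk_le_mk_of_subset hsub).trans (mk_image_le.trans (mk_cylSets_le hκ Y))
      · intro y
        have hopen : IsOpen {z : Y | rep (cylS (z : GB κ) a) = y} := by
          rw [isOpen_iff_mem_nhds]
          intro z hz
          refine mem_of_superset ((isClopen_cylS (z : GB κ) a).isOpen.mem_nhds
            (mem_cyl_self _ _)) ?_
          intro w hw
          have : cylS (X := Y) (w : GB κ) a = cylS (z : GB κ) a := by
            unfold cylS
            have hw' : (w : GB κ) ∈ cyl (z : GB κ) a := hw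
            rw [cyl_eq_of_mem hw']
          simp only [mem_ofPred_eq, this]
          exact hz
        exact hf _ hopen
    · intro x
      rw [tendsto_nhds]
      intro U hU hxU
      obtain ⟨b, hb⟩ := exists_cylS_subset hne hU hxU
      refine mem_atTop_sets.2 ⟨b, fun a ha => hb ?_⟩
      exact cyl_anti ha (hrep' (f x) a)
  · exact LimClosure_induct (fun f hf U hU => isBor_open hκ0 (hU.preimage hf))
      (borMeas_lim hκ0 hX hY)

end Pool.Agent.Helper65.GDST
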