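import Pool.Agent.Helper65.GDST.Basic

set_option autoImplicit false

open Cardinal Ordinal Set Filter Topology

universe u

namespace Pool.Agent.Helper65.GDST

section Universal

variable {κ : Cardinal.{u}}

lemma exists_surj_L {A : Type u} [Nonempty A] (hA : #A ≤ κ) :
    ∃ e : κ.ord.ToType → A, Function.Surjective e := by
  have h1 : #A ≤ #κ.ord.ToType := by rwa [mk_L]
  obtain ⟨e⟩ := h1
  exact ⟨Function.invFun e, Function.invFun_surjective e.injective⟩

lemma exists_pairing (hκ : ℵ₀ ≤ κ) :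
    Nonempty (κ.ord.ToType × κ.ord.ToType ≃ κ.ord.ToType) := by
  rw [← Cardinal.eq, mk_prod, Cardinal.lift_id, mk_L, mul_eq_self hκ]

/-- precomposition with a map of indices -/
def reindex (q : κ.ord.ToType → κ.ord.ToType) (a : GB κ) : GB κ := fun k => a (q k)

/-- precomposition with an arbitrary map of indices is continuous -/
lemma continuous_reindex (h : GoodCardinal κ) (q : κ.ord.ToType → κ.ord.ToType) :
    Continuous (reindex q) := by
  have hne := nonempty_L h.aleph0_le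
  refine continuous_generateFrom_iff.2 ?_
  rintro _ ⟨x, b, rfl⟩
  rw [isOpen_iff_mem_nhds]
  intro a ha
  obtain ⟨c, hc⟩ := exists_bound h.2.1 (mk_Iio_lt b) (fun k : Iio b => q k)
  refine mem_of_superset ((isOpen_cyl a c).mem_nhds (mem_cyl_self a c)) ?_
  intro a' ha' k hk
  have h1 : a' (q k) = a (q k) := ha' (q k) (hc ⟨k, hk⟩)
  show a' (q k) = x k
  rw [h1]
  exact ha k hk

theorem exists_universal (h : GoodCardinal κ) (X : Set (GB κ)) (ξ : Ordinal.{u}) :
    1 ≤ ξ → ξ < (Order.succ κ).ord → ∃ U : GB κ → Set X,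
      (∀ A ∈ SigmaClass κ X ξ, ∃ a, U a = A) ∧
      ∀ φ : X → GB κ, Continuous φ → {x | x ∈ U (φ x)} ∈ SigmaClass κ X ξ := by
  classical
  have hκ := h.aleph0_le
  have hne := nonempty_L hκ
  have hX := clopenBase_subspace h X
  induction ξ using WellFoundedLT.induction with
  | ind ξ ih =>
    intro hξ1 hξ2
    rcases hξ1.eq_or_lt with rfl | hlt
    · -- open sets
      have hcard : #(insert ∅ (cylSets X) : Set (Set X)) ≤ κ := by
        refine (mk_insert_le).trans ?_
        refine (add_le_add (mk_cylSets_le h X) le_rfl).trans ?_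
        rw [add_one_eq hκ]
      obtain ⟨N, hN⟩ := exists_surj_L hcard
      have hNopen : ∀ i, IsOpen (N i : Set X) := by
        intro i
        rcases (N i).2 with h1 | ⟨x, a, h1⟩
        · rw [h1]
          exact isOpen_empty
        · rw [h1]
          exact (isClopen_cylS x a).isOpen
      obtain ⟨i₀, hi₀⟩ := hN ⟨∅, mem_insert _ _⟩
      refine ⟨fun a => ⋃ i, (N (a i) : Set X), ?_, ?_⟩
      · intro A hA
        rw [sigma_one] at hA
        refine ⟨fun i => if (N i : Set X) ⊆ A then i else i₀, ?_⟩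
        ext x
        simp only [mem_iUnion]
        constructor
        · rintro ⟨i, hi⟩
          split_ifs at hi with h1
          · exact h1 hi
          · rw [hi₀] at hi
            exact absurd hi (notMem_empty x)
        · intro hx
          obtain ⟨b, hb⟩ := exists_cylS_subset hne hA hx
          obtain ⟨i, hi⟩ := hN ⟨cylS (x : GB κ) b, mem_insert_of_mem _ ⟨_, _, rfl⟩⟩
          refine ⟨i, ?_⟩
          have h1 : (N i : Set X) ⊆ A := by
            rw [hi]
            exact hb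
          rw [if_pos h1, hi]
          exact mem_cyl_self _ _
      · intro φ hφ
        rw [sigma_one, isOpen_iff_mem_nhds]
        intro x hx
        obtain ⟨i, hi⟩ := mem_iUnion.1 hx
        have := noMax hκ
        obtain ⟨b, hib⟩ := exists_gt i
        have h1 : φ ⁻¹' (cyl (φ x) b) ∈ 𝓝 x :=
          (hφ.isOpen_preimage _ (isOpen_cyl _ _)).mem_nhds (mem_cyl_self _ _)
        have h2 : (N (φ x i) : Set X) ∈ 𝓝 x := (hNopen _).mem_nhds hi
        filter_upwards [h1, h2] with y hy1 hy2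
        refine mem_iUnion.2 ⟨i, ?_⟩
        have h3 : φ y i = φ x i := hy1 i hib
        rw [h3]
        exact hy2
    · -- higher levels
      have hI : #(Ico (1 : Ordinal.{u}) ξ) ≤ Cardinal.lift.{u + 1} κ := by
        refine (mk_le_mk_of_subset Ico_subset_Iio_self).trans ?_
        rw [Cardinal.mk_Iio_ordinal, Cardinal.lift_le]
        rw [lt_ord, Order.lt_succ_iff] at hξ2
        exact hξ2
      have he : ∃ e : κ.ord.ToType → Ico (1 : Ordinal.{u}) ξ, Function.Surjective e := by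
        have h1 : Cardinal.lift.{u} #(Ico (1 : Ordinal.{u}) ξ) ≤
            Cardinal.lift.{u + 1} #κ.ord.ToType := by
          rw [mk_L]
          refine le_trans ?_ hI
          rw [Cardinal.lift_id'.{u, u + 1}]
        obtain ⟨e⟩ := Cardinal.lift_mk_le'.1 h1
        have : Nonempty (Ico (1 : Ordinal.{u}) ξ) := ⟨⟨1, le_rfl, hlt⟩⟩
        exact ⟨Function.invFun e, Function.invFun_surjective e.injective⟩
      obtain ⟨e, he⟩ := he
      have ih' : ∀ i : κ.ord.ToType, ∃ U : GB κ → Set X,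
          (∀ A ∈ SigmaClass κ X (e i : Ordinal.{u}), ∃ a, U a = A) ∧
          ∀ φ : X → GB κ, Continuous φ →
            {x | x ∈ U (φ x)} ∈ SigmaClass κ X (e i : Ordinal.{u}) :=
        fun i => ih (e i) (e i).2.2 (e i).2.1 ((e i).2.2.trans hξ2)
      choose U hU1 hU2 using ih'
      obtain ⟨p⟩ := exists_pairing hκ
      let dec : κ.ord.ToType → κ.ord.ToType → GB κ → GB κ := fun i j a k => a (p (p (i, j), k))
      have hdec : ∀ i j, Continuous (dec i j) := fun i j =>
        continuous_reindex h (fun k => p (p (i, j), k))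
      refine ⟨fun a => ⋃ ij : κ.ord.ToType × κ.ord.ToType, (U ij.1 (dec ij.1 ij.2 a))ᶜ, ?_, ?_⟩
      · intro A hA
        rw [sigma_iff hlt.ne'] at hA
        obtain ⟨S, hS, hcl, rfl⟩ := hA
        have hcard : #(insert ∅ S : Set (Set X)) ≤ κ := by
          refine (mk_insert_le).trans ?_
          refine (add_le_add hS le_rfl).trans ?_
          rw [add_one_eq hκ]
        obtain ⟨s, hs⟩ := exists_surj_L hcard
        have hcode : ∀ i j, ∃ c : GB κ, U i c =
            if ((s j : Set X))ᶜ ∈ SigmaClass κ X (e i : Ordinal.{u}) then (s j : Set X)ᶜ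
            else Set.univ := by
          intro i j
          split_ifs with h1
          · exact hU1 i _ h1
          · exact hU1 i _ (sigma_univ hX (e i).2.1)
        choose c hc using hcode
        refine ⟨fun k => c (p.symm (p.symm k).1).1 (p.symm (p.symm k).1).2 (p.symm k).2, ?_⟩
        have hdc : ∀ i j, dec i j (fun k => c (p.symm (p.symm k).1).1 (p.symm (p.symm k).1).2
            (p.symm k).2) = c i j := by
          intro i j
          funext k
          simp [dec]
        ext x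
        simp only [mem_iUnion, hdc, hc]
        constructor
        · rintro ⟨⟨i, j⟩, hij⟩
          simp only at hij
          split_ifs at hij with h1
          · rw [compl_compl] at hij
            rcases (s j).2 with h2 | h2
            · rw [h2] at hij
              exact absurd hij (notMem_empty x)
            · exact ⟨_, h2, hij⟩
          · simp at hij
        · rintro ⟨B, hB, hxB⟩
          obtain ⟨η, h1, h2, h3⟩ := hcl B hB
          obtain ⟨i, hi⟩ := he ⟨η, h1, h2⟩
          obtain ⟨j, hj⟩ := hs ⟨B, mem_insert_of_mem _ hB⟩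
          refine ⟨(i, j), ?_⟩
          have h4 : ((s j : Set X))ᶜ ∈ SigmaClass κ X (e i : Ordinal.{u}) := by
            rw [hj, hi]
            exact h3
          simp only
          rw [if_pos h4, compl_compl, hj]
          exact hxB
      · intro φ hφ
        have h1 : {x | x ∈ ⋃ ij : κ.ord.ToType × κ.ord.ToType,
            (U ij.1 (dec ij.1 ij.2 (φ x)))ᶜ} =
            ⋃ ij : κ.ord.ToType × κ.ord.ToType,
              {x | x ∈ U ij.1 (dec ij.1 ij.2 (φ x))}ᶜ := by
          ext x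
          simp
        rw [h1]
        refine sigma_iUnion hκ ?_ ?_
        · rw [mk_prod, Cardinal.lift_id, mk_L, mul_eq_self hκ]
        · rintro ⟨i, j⟩
          refine sigma_compl hκ (e i).2.1 (e i).2.2 ?_
          rw [compl_compl]
          exact hU2 i (fun x => dec i j (φ x)) ((hdec i j).comp hφ)

/-- the hierarchy does not collapse on the whole space -/
theorem exists_not_sigma (h : GoodCardinal κ) (ξ : Ordinal.{u}) (h1 : 1 ≤ ξ)
    (h2 : ξ < (Order.succ κ).ord) :
    ∃ D : Set (Set.univ : Set (GB κ)), Dᶜ ∈ SigmaClass κ (Set.univ : Set (GB κ)) ξ ∧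
      D ∉ SigmaClass κ (Set.univ : Set (GB κ)) ξ := by
  obtain ⟨U, hU1, hU2⟩ := exists_universal h (Set.univ : Set (GB κ)) ξ h1 h2
  refine ⟨{x | x ∉ U x}, ?_, ?_⟩
  · have := hU2 (fun x => (x : GB κ)) continuous_subtype_val
    convert this using 1
    ext x
    simp
  · intro hD
    obtain ⟨a, ha⟩ := hU1 _ hD
    have h3 : (⟨a, mem_univ a⟩ : (Set.univ : Set (GB κ))) ∈ U a ↔
        (⟨a, mem_univ a⟩ : (Set.univ : Set (GB κ))) ∉ U a := by
      conv_lhs => rw [ha]
      rfl
    tauto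

end Universal

section Lim

variable {κ : Cardinal.{u}} {X Y : Type u} [TopologicalSpace X] [TopologicalSpace Y]

/-- If `cof ξ < λ`, then `λ`-limits of `Σ⁰_ξ`-measurable functions are `Σ⁰_ξ`-measurable. -/
theorem limOf_meas_subset (h : GoodCardinal κ) (hY : ClopenBase κ Y)
    {ξ : Ordinal.{u}} (hξ : Order.IsSuccLimit ξ) (hcof : ξ.cof < κ) :
    LimOf κ (Meas κ X Y ξ) ⊆ Meas κ X Y ξ := by
  classical
  have hκ := h.aleph0_le
  have hne := nonempty_L hκ
  have hnm := noMax hκ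
  have h1ξ : 1 < ξ := one_lt_of_isSuccLimit hξ
  rintro f ⟨G, hG, hlim⟩ W hW
  obtain ⟨T, hT, hTcl, rfl⟩ := hY W hW
  rw [preimage_sUnion, biUnion_eq_iUnion]
  refine sigma_iUnion hκ hT ?_
  rintro ⟨V, hV⟩
  have hVc := hTcl V hV
  simp only
  -- cofinal set in ξ
  obtain ⟨s, hs, hs'⟩ := Order.exists_cof_eq ξ.ToType
  have hcard : #s < κ := by
    rw [hs', Ordinal.cof_toType]
    exact hcof
  -- decomposition of the preimages
  have hD : ∀ b, ∃ S : Set (Set X), #S ≤ κ ∧
      (∀ B ∈ S, ∃ η : Ordinal.{u}, 1 ≤ η ∧ η < ξ ∧ Bᶜ ∈ SigmaClass κ X η) ∧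
      G b ⁻¹' V = ⋃₀ S := fun b => (sigma_iff h1ξ.ne').1 (hG b V hVc.isOpen)
  choose S hS1 hS2 hS3 using hD
  -- the ordinal of an element of ξ.ToType
  let o : ξ.ToType → Ordinal.{u} := fun c => (ToType.mk.symm c : Iio ξ)
  have ho : ∀ c, o c < ξ := fun c => (ToType.mk.symm c : Iio ξ).2
  let D : κ.ord.ToType → ξ.ToType → Set X := fun b c =>
    ⋃₀ {B | B ∈ S b ∧ ∃ η : Ordinal.{u}, 1 ≤ η ∧ η ≤ o c ∧ Bᶜ ∈ SigmaClass κ X η}
  have hDs : ∀ b c, D b c ∈ SigmaClass κ X (Order.succ (max 1 (o c))) := by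
    intro b c
    refine sigma_sUnion hκ ((mk_le_mk_of_subset (fun B hB => hB.1)).trans (hS1 b)) ?_
    rintro B ⟨_, η, h1, h2, h3⟩
    exact sigma_compl hκ h1 (Order.lt_succ_of_le (h2.trans (le_max_right _ _))) h3
  have hDmono : ∀ b c c', c ≤ c' → D b c ⊆ D b c' := by
    rintro b c c' hcc x ⟨B, ⟨hB, η, h1, h2, h3⟩, hx⟩
    refine ⟨B, ⟨hB, η, h1, h2.trans ?_, h3⟩, hx⟩
    exact ToType.mk.symm.monotone hcc
  have hDsub : ∀ b c, D b c ⊆ G b ⁻¹' V := by
    rintro b c x ⟨B, ⟨hB, _⟩, hx⟩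
    rw [hS3 b]
    exact ⟨B, hB, hx⟩
  have hDex : ∀ b x, x ∈ G b ⁻¹' V → ∃ c ∈ s, x ∈ D b c := by
    intro b x hx
    rw [hS3 b] at hx
    obtain ⟨B, hB, hxB⟩ := hx
    obtain ⟨η, h1, h2, h3⟩ := hS2 b B hB
    let c : ξ.ToType := ToType.mk ⟨η, h2⟩
    have hc : o c = η := by simp [o, c]
    obtain ⟨c', hc', hcc'⟩ := hs c
    refine ⟨c', hc', hDmono b c c' hcc' ?_⟩
    exact ⟨B, ⟨hB, η, h1, hc.ge, h3⟩, hxB⟩
  have key : f ⁻¹' V = ⋃ c : s, (⋃ b₀ : κ.ord.ToType, (⋃ b : Ici b₀, D b c)ᶜ)ᶜ := by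
    ext x
    simp only [mem_preimage, mem_iUnion, mem_compl_iff, not_exists, not_forall, not_not]
    constructor
    · intro hx
      have h2 := (hlim x).eventually (hVc.isOpen.mem_nhds hx)
      obtain ⟨b₀, hb₀⟩ := eventually_atTop.1 h2
      by_contra hcon
      push Not at hcon
      choose t ht using hcon
      obtain ⟨b, hb⟩ := exists_bound h.2.1 hcard t
      obtain ⟨c, hc, hxc⟩ := hDex (max b b₀) x (hb₀ _ (le_max_right _ _))
      exact ht ⟨c, hc⟩ ⟨max b b₀, (hb ⟨c, hc⟩).le.trans (le_max_left _ _)⟩ hxc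
    · rintro ⟨c, hc⟩
      by_contra hx
      have h2 := (hlim x).eventually (hVc.compl.isOpen.mem_nhds hx)
      obtain ⟨b₀, hb₀⟩ := eventually_atTop.1 h2
      obtain ⟨b, hb⟩ := hc b₀
      exact hb₀ b b.2 (hDsub _ _ hb)
  rw [key]
  refine sigma_iUnion hκ hcard.le ?_
  rintro ⟨c, hc⟩
  have hη1 : (1 : Ordinal.{u}) ≤ Order.succ (max 1 (o c)) :=
    (le_max_left _ _).trans (Order.le_succ _)
  have hlt1 : Order.succ (Order.succ (max 1 (o c))) < ξ :=
    hξ.succ_lt (hξ.succ_lt (max_lt h1ξ (ho c)))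
  refine sigma_compl hκ (hη1.trans (Order.le_succ _)) hlt1 ?_
  rw [compl_compl]
  refine sigma_iUnion hκ (mk_L κ).le ?_
  intro b₀
  refine sigma_compl hκ hη1 (Order.lt_succ _) ?_
  rw [compl_compl]
  refine sigma_iUnion hκ ((mk_set_le _).trans (mk_L κ).le) ?_
  rintro ⟨b, _⟩
  exact hDs b c

lemma hatLim_subset_meas (hκ : ℵ₀ ≤ κ) (hX : ClopenBase κ X)
    {ξ : Ordinal.{u}} {μ : Cardinal.{u}} (hμ : μ ≤ κ) :
    HatLimOf κ ξ μ (MeasLT κ X Y ξ) ⊆ Meas κ X Y ξ := by
  rintro f ⟨G, hG, C, hC1, hC2, hC3, hC4⟩ U hU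
  have h1 : f ⁻¹' U = ⋃ i, (C i ∩ G i ⁻¹' U) := by
    ext x
    simp only [mem_preimage, mem_iUnion, mem_inter_iff]
    constructor
    · intro hx
      have : x ∈ ⋃ i, C i := by
        rw [hC1]
        trivial
      obtain ⟨i, hi⟩ := mem_iUnion.1 this
      refine ⟨i, hi, ?_⟩
      rw [hC4 i i le_rfl x hi]
      exact hx
    · rintro ⟨i, hi, hx⟩
      rwa [hC4 i i le_rfl x hi] at hx
  rw [h1]
  refine sigma_iUnion hκ ((mk_L μ).le.trans hμ) ?_
  intro i
  obtain ⟨η, h2, h3, h4⟩ := hG i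
  exact sigma_inter hκ hX (hC3 i) (sigma_mono hX h2 h3.le (h4 U hU))

omit [TopologicalSpace X] in
lemma limOf_mono {A B : Set (X → Y)} (h : A ⊆ B) (μ : Cardinal.{u}) :
    LimOf μ A ⊆ LimOf μ B := by
  rintro f ⟨G, hG, hlim⟩
  exact ⟨G, fun i => h (hG i), hlim⟩

end Lim

/-- functions with at most `λ` values and `Σ⁰_ξ` fibres belong to the restricted limit class -/
lemma mem_hatLim_of_small {κ : Cardinal.{u}} (h : GoodCardinal κ) {X Y : Type u}
    [TopologicalSpace X] [TopologicalSpace Y] (hX : ClopenBase κ X) {ξ : Ordinal.{u}}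
    (hξ : Order.IsSuccLimit ξ) (f : X → Y) (hr : #(range f) ≤ κ)
    (hf : ∀ y, f ⁻¹' {y} ∈ SigmaClass κ X ξ) (y₀ : Y) :
    f ∈ HatLimOf κ ξ ξ.cof (MeasLT κ X Y ξ) := by
  classical
  have hκ := h.aleph0_le
  have h1ξ : 1 < ξ := one_lt_of_isSuccLimit hξ
  obtain ⟨o, ho, homono, hocof⟩ := exists_cofinal_map ξ
  have hD : ∀ y, ∃ S : Set (Set X), #S ≤ κ ∧
      (∀ B ∈ S, ∃ η : Ordinal.{u}, 1 ≤ η ∧ η < ξ ∧ Bᶜ ∈ SigmaClass κ X η) ∧
      f ⁻¹' {y} = ⋃₀ S := fun y => (sigma_iff h1ξ.ne').1 (hf y)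
  choose S hS1 hS2 hS3 using hD
  let ζ : ξ.cof.ord.ToType → Ordinal.{u} := fun k => Order.succ (max 1 (o k))
  have hζ1 : ∀ k, 1 ≤ ζ k := fun k => (le_max_left _ _).trans (Order.le_succ _)
  have hζ2 : ∀ k, ζ k < ξ := fun k => hξ.succ_lt (max_lt h1ξ (ho k))
  let D : Y → ξ.cof.ord.ToType → Set X := fun y k =>
    ⋃₀ {B | B ∈ S y ∧ ∃ η : Ordinal.{u}, 1 ≤ η ∧ η ≤ o k ∧ Bᶜ ∈ SigmaClass κ X η}
  have hDs : ∀ y k, D y k ∈ SigmaClass κ X (ζ k) := by
    intro y k
    refine sigma_sUnion hκ ((mk_le_mk_of_subset (fun B hB => hB.1)).trans (hS1 y)) ?_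
    rintro B ⟨_, η, h1, h2, h3⟩
    exact sigma_compl hκ h1 (Order.lt_succ_of_le (h2.trans (le_max_right _ _))) h3
  have hDf : ∀ y k x, x ∈ D y k → f x = y := by
    rintro y k x ⟨B, ⟨hB, _⟩, hx⟩
    have h1 : x ∈ f ⁻¹' {y} := by
      rw [hS3]
      exact ⟨B, hB, hx⟩
    exact h1
  have hDmono : ∀ y k k', k ≤ k' → D y k ⊆ D y k' := by
    rintro y k k' hkk x ⟨B, ⟨hB, η, h1, h2, h3⟩, hx⟩
    exact ⟨B, ⟨hB, η, h1, h2.trans (homono _ _ hkk), h3⟩, hx⟩
  let C : ξ.cof.ord.ToType → Set X := fun k => ⋃ y : range f, D y k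
  have hCs : ∀ k, C k ∈ SigmaClass κ X (ζ k) := fun k => sigma_iUnion hκ hr (fun y => hDs y k)
  let G : ξ.cof.ord.ToType → X → Y := fun k x => if x ∈ C k then f x else y₀
  refine ⟨G, ?_, C, ?_, ?_, ?_, ?_⟩
  · intro k
    have hs1 : 1 ≤ Order.succ (ζ k) := (hζ1 k).trans (Order.le_succ _)
    refine ⟨Order.succ (ζ k), hs1, hξ.succ_lt (hζ2 k), ?_⟩
    intro U hU
    have heq : G k ⁻¹' U = (⋃ y : (range f ∩ U : Set Y), D y k) ∪
        ((C k)ᶜ ∩ {_x | y₀ ∈ U}) := by
      ext x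
      simp only [mem_preimage, mem_union, mem_iUnion, mem_inter_iff, mem_ofPred_eq,
        Subtype.exists, mem_compl_iff, exists_prop]
      by_cases hx : x ∈ C k
      · have hG : G k x = f x := if_pos hx
        rw [hG]
        constructor
        · intro h2
          obtain ⟨⟨y, hy⟩, hxy⟩ := mem_iUnion.1 hx
          have h3 := hDf y k x hxy
          exact Or.inl ⟨y, ⟨hy, by rw [← h3]; exact h2⟩, hxy⟩
        · rintro (⟨y, ⟨_, hyU⟩, hxy⟩ | ⟨h2, _⟩)
          · rw [hDf y k x hxy]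
            exact hyU
          · exact absurd hx h2
      · have hG : G k x = y₀ := if_neg hx
        rw [hG]
        constructor
        · intro h2
          exact Or.inr ⟨hx, h2⟩
        · rintro (⟨y, ⟨hy, _⟩, hxy⟩ | ⟨_, h2⟩)
          · exact absurd (mem_iUnion.2 ⟨⟨y, hy⟩, hxy⟩) hx
          · exact h2
    rw [heq]
    refine sigma_union hκ ?_ ?_
    · refine sigma_iUnion hκ ((mk_le_mk_of_subset inter_subset_left).trans hr) (fun y => ?_)
      exact sigma_mono hX (hζ1 k) (Order.le_succ _) (hDs y k)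
    · refine sigma_inter hκ hX ?_ ?_
      · refine sigma_compl hκ (hζ1 k) (Order.lt_succ _) ?_
        rw [compl_compl]
        exact hCs k
      · by_cases hy : y₀ ∈ U
        · simp only [hy]
          exact sigma_univ hX hs1
        · simp only [hy]
          exact sigma_empty hX hs1
  · rw [eq_univ_iff_forall]
    intro x
    have h1 : x ∈ f ⁻¹' {f x} := rfl
    rw [hS3] at h1
    obtain ⟨B, hB, hxB⟩ := h1
    obtain ⟨η, h2, h3, h4⟩ := hS2 _ B hB
    obtain ⟨k, hk⟩ := hocof η h3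
    exact mem_iUnion.2 ⟨k, mem_iUnion.2 ⟨⟨f x, ⟨x, rfl⟩⟩, ⟨B, ⟨hB, η, h2, hk, h4⟩, hxB⟩⟩⟩
  · intro k k' hkk
    exact iUnion_mono (fun y => hDmono y k k' hkk)
  · intro k
    exact sigma_mono hX (hζ1 k) (hζ2 k).le (hCs k)
  · intro k k' hkk x hx
    have hsub : C k ⊆ C k' := iUnion_mono (fun y => hDmono y k k' hkk)
    have hx' : x ∈ C k' := hsub hx
    exact if_pos hx'

/-- For `cof ξ < λ` the class on the right-hand side is exactly the class of
`Σ⁰_ξ`-measurable functions. -/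
theorem limOf_hatLim_eq {κ : Cardinal.{u}} (h : GoodCardinal κ) (ξ : Ordinal.{u})
    (hξ : Order.IsSuccLimit ξ) (hcof : ξ.cof < κ) (X Y : Set (GB κ)) :
    LimOf κ (HatLimOf κ ξ ξ.cof (MeasLT κ X Y ξ)) = Meas κ X Y ξ := by
  classical
  have hκ := h.aleph0_le
  have hne := nonempty_L hκ
  have hX := clopenBase_subspace h X
  have hY := clopenBase_subspace h Y
  apply Subset.antisymm
  · exact (limOf_mono (hatLim_subset_meas hκ hX hcof.le) κ).trans
      (limOf_meas_subset h hY hξ hcof)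
  · intro f hf
    rcases isEmpty_or_nonempty X with hXe | ⟨⟨x₀⟩⟩
    · have hmeas : f ∈ MeasLT κ X Y ξ := by
        refine ⟨1, le_rfl, one_lt_of_isSuccLimit hξ, fun U hU => ?_⟩
        rw [sigma_one]
        have : f ⁻¹' U = ∅ := by
          ext x
          exact (hXe.false x).elim
        rw [this]
        exact isOpen_empty
      refine ⟨fun _ => f, fun _ => ⟨fun _ => f, fun _ => hmeas, fun _ => Set.univ, ?_, ?_, ?_, ?_⟩,
        fun x => tendsto_const_nhds⟩
      · have := nonempty_L (isRegular_cof hξ).aleph0_le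
        rw [iUnion_const]
      · intro i j _
        exact Subset.rfl
      · intro i
        exact sigma_univ hX (one_lt_of_isSuccLimit hξ).le
      · intro i j _ x _
        rfl
    -- representatives
    have hrep : ∀ (B : Set Y), ∃ y : Y, B.Nonempty → y ∈ B := by
      intro B
      by_cases h : B.Nonempty
      · obtain ⟨y, hy⟩ := h
        exact ⟨y, fun _ => hy⟩
      · exact ⟨f x₀, fun h' => absurd h' h⟩
    choose rep hrep using hrep
    have hrep' : ∀ (y : Y) (a : κ.ord.ToType), rep (cylS (y : GB κ) a) ∈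
        (cylS (y : GB κ) a : Set Y) :=
      fun y a => hrep _ ⟨y, mem_cyl_self _ _⟩
    refine ⟨fun a x => rep (cylS (f x : GB κ) a), ?_, ?_⟩
    · intro a
      refine mem_hatLim_of_small h hX hξ _ ?_ ?_ (f x₀)
      · have hsub : range (fun x => rep (cylS (f x : GB κ) a)) ⊆ rep '' (cylSets Y) := by
          rintro _ ⟨x, rfl⟩
          exact ⟨_, ⟨_, _, rfl⟩, rfl⟩
        exact (mk_le_mk_of_subset hsub).trans (mk_image_le.trans (mk_cylSets_le h Y))
      · intro y
        have hopen : IsOpen {z : Y | rep (cylS (z : GB κ) a) = y} := by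
          rw [isOpen_iff_mem_nhds]
          intro z hz
          refine mem_of_superset ((isClopen_cylS (z : GB κ) a).isOpen.mem_nhds
            (mem_cyl_self _ _)) ?_
          intro w hw
          have : cylS (X := Y) (w : GB κ) a = cylS (z : GB κ) a := by
            unfold cylS
            have hw' : (w : GB κ) ∈ cyl (z : GB κ) a := hw
            rw [cyl_eq_of_mem hw']
          simp only [mem_ofPred_eq, this]
          exact hz
        exact hf _ hopen
    · intro x
      rw [tendsto_nhds]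
      intro U hU hxU
      obtain ⟨b, hb⟩ := exists_cylS_subset hne hU hxU
      refine mem_atTop_sets.2 ⟨b, fun a ha => hb ?_⟩
      exact cyl_anti ha (hrep' (f x) a)

theorem not_meas_succ_subset {κ : Cardinal.{u}} (h : GoodCardinal κ) (ξ : Ordinal.{u})
    (hξ : Order.IsSuccLimit ξ) (hξκ : ξ < (Order.succ κ).ord) (hcof : ξ.cof < κ)
    (Y : Set (GB κ)) (hY : Y.Nontrivial) :
    ¬ Meas κ (Set.univ : Set (GB κ)) Y (Order.succ ξ) ⊆
      LimOf κ (HatLimOf κ ξ ξ.cof (MeasLT κ (Set.univ : Set (GB κ)) Y ξ)) := by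
  classical
  intro hcon
  have hκ := h.aleph0_le
  have hX := clopenBase_subspace h (Set.univ : Set (GB κ))
  have hYc := clopenBase_subspace h Y
  have h1ξ : 1 ≤ ξ := by
    rw [Order.one_le_iff_ne_zero]
    exact hξ.bot_lt.ne'
  obtain ⟨D, hD1, hD2⟩ := exists_not_sigma h ξ h1ξ hξκ
  obtain ⟨y₁, hy₁, y₂, hy₂, hne⟩ := hY
  let f : ↥(Set.univ : Set (GB κ)) → Y := fun x => if x ∈ D then ⟨y₁, hy₁⟩ else ⟨y₂, hy₂⟩
  have hf : f ∈ Meas κ (Set.univ : Set (GB κ)) Y (Order.succ ξ) := by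
    intro U hU
    have hDs : D ∈ SigmaClass κ (Set.univ : Set (GB κ)) (Order.succ ξ) :=
      sigma_compl hκ h1ξ (Order.lt_succ ξ) hD1
    have hDc : Dᶜ ∈ SigmaClass κ (Set.univ : Set (GB κ)) (Order.succ ξ) :=
      sigma_mono hX h1ξ (Order.le_succ ξ) hD1
    have h1s : (1 : Ordinal.{u}) ≤ Order.succ ξ := h1ξ.trans (Order.le_succ ξ)
    by_cases ha : (⟨y₁, hy₁⟩ : Y) ∈ U <;> by_cases hb : (⟨y₂, hy₂⟩ : Y) ∈ U
    · have : f ⁻¹' U = Set.univ := by
        ext x
        by_cases hx : x ∈ D <;> simp [f, hx, ha, hb]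
      rw [this]
      exact sigma_univ hX h1s
    · have : f ⁻¹' U = D := by
        ext x
        by_cases hx : x ∈ D <;> simp [f, hx, ha, hb]
      rw [this]
      exact hDs
    · have : f ⁻¹' U = Dᶜ := by
        ext x
        by_cases hx : x ∈ D <;> simp [f, hx, ha, hb]
      rw [this]
      exact hDc
    · have : f ⁻¹' U = ∅ := by
        ext x
        by_cases hx : x ∈ D <;> simp [f, hx, ha, hb]
      rw [this]
      exact sigma_empty hX h1s
  have hf2 : f ∈ Meas κ (Set.univ : Set (GB κ)) Y ξ :=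
    limOf_meas_subset h hYc hξ hcof
      (limOf_mono (hatLim_subset_meas hκ hX hcof.le) κ (hcon hf))
  -- separate the two points
  have hsep : ∃ a : κ.ord.ToType, y₂ ∉ cyl y₁ a := by
    obtain ⟨i, hi⟩ := Function.ne_iff.1 hne
    have := noMax hκ
    obtain ⟨b, hib⟩ := exists_gt i
    exact ⟨b, fun hmem => hi (hmem i hib).symm⟩
  obtain ⟨a, ha⟩ := hsep
  have h3 := hf2 (cylS y₁ a) (isClopen_cylS y₁ a).isOpen
  have h4 : f ⁻¹' (cylS y₁ a) = D := by
    ext x
    by_cases hx : x ∈ D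
    · simp only [mem_preimage, f, hx, iff_true]
      exact mem_cyl_self y₁ a
    · simp only [mem_preimage, f, hx, iff_false]
      exact ha
  rw [h4] at h3
  exact hD2 h3

end Pool.Agent.Helper65.GDST
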