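import Pool.Agent.Helper65.GDST.Basic

set_option autoImplicit false

open Cardinal Ordinal Set Filter Topology

universe u

namespace Pool.Agent.Helper65.GDST

section Club

variable {κ : Cardinal.{u}}

/-- closed subsets of `λ`, in elementary terms -/
def ClosedL (P : Set κ.ord.ToType) : Prop :=
  ∀ b, (∃ c, c < b) → (∀ c < b, ∃ d, c < d ∧ d < b ∧ d ∈ P) → b ∈ P

def UnbL (P : Set κ.ord.ToType) : Prop := ∀ c, ∃ b, c < b ∧ b ∈ P

/-- limits of `ω`-sequences -/
lemma exists_sup (h : GoodCardinal κ) (f : ℕ → κ.ord.ToType) (hf : ∀ n, f n < f (n + 1)) :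
    ∃ b, (∀ n, f n < b) ∧ ∀ c < b, ∃ n, c < f n := by
  obtain ⟨b₀, hb₀⟩ := exists_bound h.2.1 (ι := ULift.{u} ℕ) (by
    rw [mk_uLift, mk_nat, lift_aleph0]
    exact h.1) (fun n => f n.down)
  have hne : {b | ∀ n, f n < b}.Nonempty := ⟨b₀, fun n => hb₀ ⟨n⟩⟩
  refine ⟨WellFounded.min (wellFounded_lt (α := κ.ord.ToType)) _ hne,
    WellFounded.min_mem _ _ hne, ?_⟩
  intro c hc
  have h1 : c ∉ {b | ∀ n, f n < b} := fun hmem =>
    WellFounded.not_lt_min (wellFounded_lt (α := κ.ord.ToType)) _ hmem hc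
  simp only [mem_ofPred_eq, not_forall, not_lt] at h1
  obtain ⟨n, hn⟩ := h1
  exact ⟨n + 1, lt_of_le_of_lt hn (hf n)⟩

/-- diagonal intersections of fewer than `κ` many families of clubs are unbounded -/
lemma diag_unb (h : GoodCardinal κ) {J : Type u} (hJ : #J < κ)
    (P : J → κ.ord.ToType → Set κ.ord.ToType) (hcl : ∀ j i, ClosedL (P j i))
    (hunb : ∀ j i, UnbL (P j i)) (c : κ.ord.ToType) :
    ∃ b, c < b ∧ ∀ j, ∀ i < b, b ∈ P j i := by
  have hκ := h.aleph0_le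
  have hnm := noMax hκ
  choose e he1 he2 using hunb
  have hstep : ∀ b : κ.ord.ToType, ∃ b', b < b' ∧ ∀ j, ∀ i < b, e j i b < b' := by
    intro b
    obtain ⟨b₁, hb₁⟩ := exists_bound h.2.1 (ι := J × Iio b) (by
      rw [mk_prod, Cardinal.lift_id, Cardinal.lift_id]
      exact mul_lt_of_lt hκ hJ (mk_Iio_lt b)) (fun p => e p.1 p.2 b)
    obtain ⟨b₂, hb₂⟩ := exists_gt (max b b₁)
    refine ⟨b₂, (le_max_left _ _).trans_lt hb₂, fun j i hi => ?_⟩
    exact (hb₁ (j, ⟨i, hi⟩)).trans ((le_max_right _ _).trans_lt hb₂)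
  choose nx hnx1 hnx2 using hstep
  let f : ℕ → κ.ord.ToType := fun n => Nat.rec c (fun _ b => nx b) n
  have hf0 : f 0 = c := rfl
  have hfs : ∀ n, f (n + 1) = nx (f n) := fun n => rfl
  have hf : ∀ n, f n < f (n + 1) := fun n => by rw [hfs]; exact hnx1 _
  have hfm : StrictMono f := strictMono_nat_of_lt_succ hf
  obtain ⟨b, hb1, hb2⟩ := exists_sup h f hf
  refine ⟨b, by have := hb1 0; rwa [hf0] at this, ?_⟩
  intro j i hi
  apply hcl j i b ⟨i, hi⟩
  intro d hd
  obtain ⟨n, hn⟩ := hb2 (max i d) (max_lt hi hd)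
  refine ⟨e j i (f n), ?_, ?_, he2 j i (f n)⟩
  · exact ((le_max_right i d).trans_lt hn).trans (he1 j i (f n))
  · have h1 := hnx2 (f n) j i ((le_max_left i d).trans_lt hn)
    rw [← hfs] at h1
    exact h1.trans (hb1 (n + 1))

/-- the last element below `b` of a closed set -/
lemma exists_last {P : Set κ.ord.ToType} (hP : ClosedL P) {b d₀ : κ.ord.ToType} (h1 : d₀ ≤ b)
    (h2 : d₀ ∈ P) : ∃ d, d ≤ b ∧ d ∈ P ∧ ∀ d', d < d' → d' ≤ b → d' ∉ P := by
  have hne : {v | ∀ p ∈ P, p ≤ b → p ≤ v}.Nonempty := ⟨b, fun p _ hp => hp⟩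
  set d := WellFounded.min (wellFounded_lt (α := κ.ord.ToType)) _ hne with hd
  have hdm : d ∈ {v | ∀ p ∈ P, p ≤ b → p ≤ v} := WellFounded.min_mem _ _ hne
  have hmin : ∀ v, v < d → ∃ p ∈ P, p ≤ b ∧ v < p := by
    intro v hv
    have h3 : v ∉ {v | ∀ p ∈ P, p ≤ b → p ≤ v} := fun hmem =>
      WellFounded.not_lt_min (wellFounded_lt (α := κ.ord.ToType)) _ hmem hv
    simp only [mem_ofPred_eq, not_forall, not_le, exists_prop] at h3
    exact h3
  have hdb : d ≤ b := by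
    by_contra hcon
    push Not at hcon
    obtain ⟨p, _, hpb, hbp⟩ := hmin b hcon
    exact absurd hpb (not_le.2 hbp)
  refine ⟨d, hdb, ?_, fun d' hd1 hd2 hd3 => absurd (hdm d' hd3 hd2) (not_le.2 hd1)⟩
  by_contra hdP
  apply hdP
  have h0 : d₀ < d := lt_of_le_of_ne (hdm d₀ h2 h1) (fun h => hdP (h ▸ h2))
  apply hP d ⟨d₀, h0⟩
  intro c hc
  obtain ⟨p, hp, hpb, hcp⟩ := hmin c hc
  exact ⟨p, hcp, lt_of_le_of_ne (hdm p hp hpb) (fun h => hdP (h ▸ hp)), hp⟩

end Club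

section Approx

variable {κ : Cardinal.{u}} {X : Set (GB κ)}

/-- agreement of two points below `b` -/
def Agree (b : κ.ord.ToType) (x y : X) : Prop := ∀ i < b, (y : GB κ) i = (x : GB κ) i

lemma isClopen_of_agree {b : κ.ord.ToType} {A : Set X}
    (hA : ∀ x y : X, Agree b x y → (x ∈ A ↔ y ∈ A)) : IsClopen A := by
  have hopen : ∀ B : Set X, (∀ x y : X, Agree b x y → (x ∈ B ↔ y ∈ B)) → IsOpen B := by
    intro B hB
    rw [isOpen_iff_mem_nhds]
    intro x hx
    refine mem_of_superset ((isClopen_cylS (x : GB κ) b).isOpen.mem_nhds (mem_cyl_self _ _)) ?_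
    intro y hy
    exact (hB x y hy).1 hx
  refine ⟨⟨hopen _ ?_⟩, hopen _ hA⟩
  intro x y hxy
  simp only [mem_compl_iff, hA x y hxy]

/-- a club guessing system for the set `B`, of complexity `ζ` -/
def HasApprox (B : Set X) (ζ : Ordinal.{u}) : Prop :=
  ∃ E G : κ.ord.ToType → Set X,
    (∀ b, (E b)ᶜ ∈ SigmaClass κ X (Order.succ ζ)) ∧
    (∀ b x y, Agree b x y → (x ∈ G b ↔ y ∈ G b)) ∧
    (∀ b, ∀ x ∈ E b, (x ∈ G b ↔ x ∈ B)) ∧
    (∀ x, ClosedL {b | x ∈ E b}) ∧ ∀ x, UnbL {b | x ∈ E b}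

lemma HasApprox.compl {B : Set X} {ζ : Ordinal.{u}} (h : HasApprox B ζ) : HasApprox Bᶜ ζ := by
  obtain ⟨E, G, h1, h2, h3, h4, h5⟩ := h
  refine ⟨E, fun b => (G b)ᶜ, h1, ?_, ?_, h4, h5⟩
  · intro b x y hxy
    simp only [mem_compl_iff, h2 b x y hxy]
  · intro b x hx
    simp only [mem_compl_iff, h3 b x hx]

lemma hasApprox_open (h : GoodCardinal κ) {A : Set X} (hA : IsOpen A) : HasApprox A 1 := by
  have hκ := h.aleph0_le
  have hne := nonempty_L hκ
  have hnm := noMax hκ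
  have hX := clopenBase_subspace h X
  refine ⟨fun b => Aᶜ ∪ {x | cylS (x : GB κ) b ⊆ A}, fun b => {x | cylS (x : GB κ) b ⊆ A},
    ?_, ?_, ?_, ?_, ?_⟩
  · intro b
    have hcl : IsClopen {x : X | cylS (x : GB κ) b ⊆ A} := by
      refine isClopen_of_agree (b := b) ?_
      intro x y hxy
      have h1 : cylS (X := X) (x : GB κ) b = cylS (y : GB κ) b := by
        unfold cylS
        have h2 : (y : GB κ) ∈ cyl (x : GB κ) b := hxy
        rw [cyl_eq_of_mem h2]
      simp only [mem_ofPred_eq, h1]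
    rw [compl_union, compl_compl]
    refine sigma_mono hX le_rfl (Order.le_succ 1) ?_
    rw [sigma_one]
    exact hA.inter hcl.compl.isOpen
  · intro b x y hxy
    have h1 : cylS (X := X) (x : GB κ) b = cylS (y : GB κ) b := by
      unfold cylS
      have h2 : (y : GB κ) ∈ cyl (x : GB κ) b := hxy
      rw [cyl_eq_of_mem h2]
    simp only [mem_ofPred_eq, h1]
  · rintro b x (hx | hx)
    · refine ⟨fun h1 => h1 (mem_cyl_self _ _), fun h1 => absurd h1 hx⟩
    · refine ⟨fun h1 => h1 (mem_cyl_self _ _), fun _ => hx⟩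
  · rintro x b ⟨c, hc⟩ hlim
    obtain ⟨d, hcd, hdb, hd⟩ := hlim c hc
    rcases hd with hd | hd
    · exact Or.inl hd
    · refine Or.inr ?_
      have h1 : cylS (x : GB κ) d ⊆ A := hd
      exact fun y hy => h1 (cyl_anti hdb.le hy)
  · intro x c
    by_cases hx : x ∈ A
    · obtain ⟨b, hb⟩ := exists_cylS_subset hne hA hx
      obtain ⟨b', hb'⟩ := exists_gt (max b c)
      refine ⟨b', (le_max_right _ _).trans_lt hb', Or.inr ?_⟩
      exact fun y hy => hb (cyl_anti ((le_max_left _ _).trans hb'.le) hy)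
    · obtain ⟨b', hb'⟩ := exists_gt c
      exact ⟨b', hb', Or.inl hx⟩

lemma hasApprox_iUnion (h : GoodCardinal κ) {ζ : Ordinal.{u}} (hζ : 1 ≤ ζ)
    (B : κ.ord.ToType → Set X) (η : κ.ord.ToType → Ordinal.{u}) (hη1 : ∀ i, 1 ≤ η i)
    (hη2 : ∀ i, η i < ζ) (hB : ∀ i, (B i)ᶜ ∈ SigmaClass κ X (η i))
    (hap : ∀ i, HasApprox (B i) (η i)) : HasApprox (⋃ i, B i) ζ := by
  have hκ := h.aleph0_le
  have hne := nonempty_L hκ
  have hnm := noMax hκ
  have hX := clopenBase_subspace h X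
  choose E G h1 h2 h3 h4 h5 using hap
  set A := ⋃ i, B i with hA
  have hBs : ∀ i, B i ∈ SigmaClass κ X ζ := fun i => sigma_compl hκ (hη1 i) (hη2 i) (hB i)
  have hAs : A ∈ SigmaClass κ X ζ := sigma_iUnion hκ (mk_L κ).le hBs
  have hsub : ∀ b, (⋃ i : Iio b, B i) ∈ SigmaClass κ X ζ := fun b =>
    sigma_iUnion hκ (mk_Iio_lt b).le (fun i => hBs i)
  refine ⟨fun b => {x | (∀ i < b, x ∈ E i b) ∧ (x ∈ A → ∃ i < b, x ∈ B i)},
    fun b => {x | ∃ i < b, x ∈ G i b}, ?_, ?_, ?_, ?_, ?_⟩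
  · intro b
    have heq : {x | (∀ i < b, x ∈ E i b) ∧ (x ∈ A → ∃ i < b, x ∈ B i)}ᶜ =
        (⋃ i : Iio b, (E i b)ᶜ) ∪ (A ∩ (⋃ i : Iio b, B i)ᶜ) := by
      ext x
      simp only [mem_compl_iff, mem_ofPred_eq, mem_union, mem_iUnion, mem_inter_iff,
        Subtype.exists, mem_Iio, exists_prop, not_and_or, not_forall, not_exists]
    rw [heq]
    have hss : ∀ i, Order.succ (η i) ≤ Order.succ ζ := fun i =>
      Order.succ_le_succ (hη2 i).le
    have h1ss : ∀ i, 1 ≤ Order.succ (η i) := fun i => (hη1 i).trans (Order.le_succ _)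
    refine sigma_union hκ ?_ ?_
    · exact sigma_iUnion hκ (mk_Iio_lt b).le
        (fun i => sigma_mono hX (h1ss _) (hss _) (h1 i b))
    · refine sigma_inter hκ hX (sigma_mono hX hζ (Order.le_succ ζ) hAs) ?_
      refine sigma_compl hκ hζ (Order.lt_succ ζ) ?_
      rw [compl_compl]
      exact hsub b
  · intro b x y hxy
    simp only [mem_ofPred_eq, h2 _ b x y hxy]
  · rintro b x ⟨hx1, hx2⟩
    simp only [mem_ofPred_eq]
    constructor
    · rintro ⟨i, hi, hxi⟩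
      exact mem_iUnion.2 ⟨i, (h3 i b x (hx1 i hi)).1 hxi⟩
    · intro hx
      obtain ⟨i, hi, hxi⟩ := hx2 hx
      exact ⟨i, hi, (h3 i b x (hx1 i hi)).2 hxi⟩
  · rintro x b ⟨c, hc⟩ hlim
    refine ⟨?_, ?_⟩
    · intro i hi
      apply h4 i x b ⟨c, hc⟩
      intro c' hc'
      obtain ⟨d, hd1, hd2, hd3⟩ := hlim (max i c') (max_lt hi hc')
      exact ⟨d, (le_max_right _ _).trans_lt hd1, hd2, hd3.1 i ((le_max_left _ _).trans_lt hd1)⟩
    · intro hx
      obtain ⟨d, hd1, hd2, hd3⟩ := hlim c hc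
      obtain ⟨i, hi, hxi⟩ := hd3.2 hx
      exact ⟨i, hi.trans hd2, hxi⟩
  · intro x c
    have hkey : ∃ c', c ≤ c' ∧ (x ∈ A → ∃ i < c', x ∈ B i) := by
      by_cases hx : x ∈ A
      · obtain ⟨i, hi⟩ := mem_iUnion.1 hx
        obtain ⟨c', hc'⟩ := exists_gt (max i c)
        exact ⟨c', (le_max_right _ _).trans hc'.le,
          fun _ => ⟨i, (le_max_left _ _).trans_lt hc', hi⟩⟩
      · exact ⟨c, le_rfl, fun h => absurd h hx⟩
    obtain ⟨c', hcc', hc'⟩ := hkey
    obtain ⟨b, hb1, hb2⟩ := diag_unb h (J := PUnit.{u + 1}) (by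
      rw [mk_punit]
      exact one_lt_aleph0.trans h.1) (fun _ i => {b | x ∈ E i b}) (fun _ i => h4 i x)
      (fun _ i => h5 i x) c'
    refine ⟨b, hcc'.trans_lt hb1, fun i hi => hb2 PUnit.unit i hi, ?_⟩
    intro hx
    obtain ⟨i, hi, hxi⟩ := hc' hx
    exact ⟨i, hi.trans hb1, hxi⟩

lemma hasApprox_sigma (h : GoodCardinal κ) (ζ : Ordinal.{u}) :
    1 ≤ ζ → ∀ A ∈ SigmaClass κ X ζ, HasApprox A ζ := by
  have hκ := h.aleph0_le
  have hX := clopenBase_subspace h X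
  induction ζ using WellFoundedLT.induction with
  | ind ζ ih =>
    intro hζ A hA
    rcases hζ.eq_or_lt with rfl | hlt
    · exact hasApprox_open h (sigma_one.1 hA)
    · obtain ⟨S, hS, hcl, rfl⟩ := (sigma_iff hlt.ne').1 hA
      have hcard : #(insert ∅ S : Set (Set X)) ≤ κ := by
        refine (mk_insert_le).trans ?_
        refine (add_le_add hS le_rfl).trans ?_
        rw [add_one_eq hκ]
      have h1 : #(insert ∅ S : Set (Set X)) ≤ #κ.ord.ToType := by rwa [mk_L]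
      obtain ⟨e⟩ := h1
      have : Nonempty (insert ∅ S : Set (Set X)) := ⟨⟨∅, mem_insert _ _⟩⟩
      have hsurj := Function.invFun_surjective e.injective
      set s : κ.ord.ToType → (insert ∅ S : Set (Set X)) := Function.invFun e with hs
      have hlev : ∀ i, ∃ η : Ordinal.{u}, 1 ≤ η ∧ η < ζ ∧ ((s i : Set X))ᶜ ∈ SigmaClass κ X η := by
        intro i
        rcases (s i).2 with h2 | h2
        · rw [h2, compl_empty]
          exact ⟨1, le_rfl, hlt, sigma_univ hX le_rfl⟩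
        · exact hcl _ h2
      choose η hη1 hη2 hη3 using hlev
      have hU : ⋃₀ S = ⋃ i, (s i : Set X) := by
        ext x
        simp only [mem_sUnion, mem_iUnion]
        constructor
        · rintro ⟨B, hB, hx⟩
          obtain ⟨i, hi⟩ := hsurj ⟨B, mem_insert_of_mem _ hB⟩
          refine ⟨i, ?_⟩
          rw [hi]
          exact hx
        · rintro ⟨i, hi⟩
          rcases (s i).2 with h2 | h2
          · rw [h2] at hi
            exact absurd hi (notMem_empty x)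
          · exact ⟨_, h2, hi⟩
      rw [hU]
      refine hasApprox_iUnion h hζ _ η hη1 hη2 hη3 ?_
      intro i
      have h2 := (ih (η i) (hη2 i) (hη1 i) _ (hη3 i)).compl
      rwa [compl_compl] at h2

end Approx

section Main

variable {κ : Cardinal.{u}}

theorem meas_succ_subset (h : GoodCardinal κ) (X Y : Set (GB κ)) (ξ : Ordinal.{u})
    (hξ : Order.IsSuccLimit ξ) (hcof : ξ.cof < κ) :
    Meas κ X Y (Order.succ ξ) ⊆ LimOf κ (LimOf ξ.cof (MeasLT κ X Y ξ)) := by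
  classical
  intro f hf
  have hκ := h.aleph0_le
  have hne := nonempty_L hκ
  have hnm := noMax hκ
  have hX := clopenBase_subspace h X
  have hreg : ξ.cof.IsRegular := isRegular_cof hξ
  have hneK := nonempty_L hreg.aleph0_le
  have h1ξ : 1 < ξ := one_lt_of_isSuccLimit hξ
  -- the empty case
  rcases isEmpty_or_nonempty X with hXe | ⟨⟨x₀⟩⟩
  · have hmeas : f ∈ MeasLT κ X Y ξ := by
      refine ⟨1, le_rfl, h1ξ, fun U hU => ?_⟩
      rw [sigma_one]
      have : f ⁻¹' U = ∅ := by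
        ext x
        exact (hXe.false x).elim
      rw [this]
      exact isOpen_empty
    exact ⟨fun _ => f, fun _ => ⟨fun _ => f, fun _ => hmeas, fun x => tendsto_const_nhds⟩,
      fun x => tendsto_const_nhds⟩
  set y₀ : Y := f x₀
  -- a cofinal monotone map into ξ
  obtain ⟨o, ho, homono, hocof⟩ := exists_cofinal_map ξ
  -- decomposition of the preimages of the basic sets
  have hdec : ∀ V : cylSets Y, ∃ S : Set (Set X), #S ≤ κ ∧
      (∀ B ∈ S, ∃ η : Ordinal.{u}, 1 ≤ η ∧ η < Order.succ ξ ∧ Bᶜ ∈ SigmaClass κ X η) ∧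
      f ⁻¹' (V : Set Y) = ⋃₀ S := by
    intro V
    have hV : IsOpen (V : Set Y) := by
      obtain ⟨y, a, hya⟩ := V.2
      rw [hya]
      exact (isClopen_cylS y a).isOpen
    have h1s : Order.succ ξ ≠ 1 := (h1ξ.trans (Order.lt_succ ξ)).ne'
    exact (sigma_iff h1s).1 (hf V hV)
  choose S hS1 hS2 hS3 using hdec
  -- the index set
  have hIcard : #(Σ V : cylSets Y, S V) ≤ κ := by
    rw [mk_sigma]
    refine (sum_le_mk_mul_iSup _).trans ?_
    refine mul_le_of_le hκ (mk_cylSets_le h Y) ?_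
    exact ciSup_le' (fun V => hS1 V)
  have hIne : Nonempty (Σ V : cylSets Y, S V) := by
    obtain ⟨a⟩ := hne
    have hx : x₀ ∈ f ⁻¹' (cylS (f x₀ : GB κ) a : Set Y) := mem_cyl_self _ _
    have h2 := hS3 ⟨cylS (f x₀ : GB κ) a, ⟨_, _, rfl⟩⟩
    simp only at h2
    rw [h2] at hx
    obtain ⟨B, hB, _⟩ := hx
    exact ⟨⟨_, ⟨B, hB⟩⟩⟩
  have h1 : #(Σ V : cylSets Y, S V) ≤ #κ.ord.ToType := by rwa [mk_L]
  obtain ⟨emb⟩ := h1
  have hsurj := Function.invFun_surjective emb.injective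
  set ix : κ.ord.ToType → Σ V : cylSets Y, S V := Function.invFun emb with hix
  let V : κ.ord.ToType → Set Y := fun i => ((ix i).1 : Set Y)
  let A : κ.ord.ToType → Set X := fun i => ((ix i).2 : Set X)
  have hAV : ∀ i x, x ∈ A i → f x ∈ V i := by
    intro i x hx
    have h2 : x ∈ ⋃₀ S (ix i).1 := ⟨_, (ix i).2.2, hx⟩
    rw [← hS3] at h2
    exact h2
  have hcover : ∀ x (a : κ.ord.ToType), ∃ i, V i = cylS (f x : GB κ) a ∧ x ∈ A i := by
    intro x a
    have hx : x ∈ f ⁻¹' (cylS (f x : GB κ) a : Set Y) := mem_cyl_self _ _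
    have h2 := hS3 ⟨cylS (f x : GB κ) a, ⟨_, _, rfl⟩⟩
    simp only at h2
    rw [h2] at hx
    obtain ⟨B, hB, hxB⟩ := hx
    obtain ⟨i, hi⟩ := hsurj ⟨⟨cylS (f x : GB κ) a, ⟨_, _, rfl⟩⟩, ⟨B, hB⟩⟩
    refine ⟨i, ?_, ?_⟩
    · simp only [V, hi]
    · have h5 : ∀ p : (Σ V : cylSets Y, S V),
          p = ⟨⟨cylS (f x : GB κ) a, ⟨_, _, rfl⟩⟩, ⟨B, hB⟩⟩ → (p.2 : Set X) = B := by
        rintro _ rfl
        rfl
      show x ∈ ((ix i).2 : Set X)
      rw [h5 (ix i) hi]
      exact hxB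
  -- each `A i` is `Π⁰_ξ`
  have hApi : ∀ i, ∃ T : Set (Set X), #T ≤ κ ∧
      (∀ B ∈ T, ∃ η : Ordinal.{u}, 1 ≤ η ∧ η < ξ ∧ Bᶜ ∈ SigmaClass κ X η) ∧
      (A i)ᶜ = ⋃₀ T := by
    intro i
    obtain ⟨η, h2, h3, h4⟩ := hS2 (ix i).1 _ (ix i).2.2
    exact (sigma_iff h1ξ.ne').1 (sigma_mono hX h2 (Order.lt_succ_iff.1 h3) h4)
  choose T hT1 hT2 hT3 using hApi
  let ζ : ξ.cof.ord.ToType → Ordinal.{u} := fun k => Order.succ (max 1 (o k))
  have hζ1 : ∀ k, 1 ≤ ζ k := fun k => (le_max_left _ _).trans (Order.le_succ _)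
  have hζ2 : ∀ k, ζ k < ξ := fun k => hξ.succ_lt (max_lt h1ξ (ho k))
  have hζm : ∀ k k', k ≤ k' → ζ k ≤ ζ k' := fun k k' hkk =>
    Order.succ_le_succ (max_le_max le_rfl (homono k k' hkk))
  -- the complements of the approximations to `A i`
  let C : κ.ord.ToType → ξ.cof.ord.ToType → Set X := fun i k =>
    ⋃₀ {B | B ∈ T i ∧ ∃ η : Ordinal.{u}, 1 ≤ η ∧ η ≤ o k ∧ Bᶜ ∈ SigmaClass κ X η}
  have hCs : ∀ i k, C i k ∈ SigmaClass κ X (ζ k) := by
    intro i k
    refine sigma_sUnion hκ ((mk_le_mk_of_subset (fun B hB => hB.1)).trans (hT1 i)) ?_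
    rintro B ⟨_, η, h2, h3, h4⟩
    exact sigma_compl hκ h2 (Order.lt_succ_of_le (h3.trans (le_max_right _ _))) h4
  have hCA : ∀ i x, (∀ k, x ∉ C i k) ↔ x ∈ A i := by
    intro i x
    constructor
    · intro hx
      by_contra hxA
      have h2 : x ∈ ⋃₀ T i := by
        rw [← hT3]
        exact hxA
      obtain ⟨B, hB, hxB⟩ := h2
      obtain ⟨η, h3, h4, h5⟩ := hT2 i B hB
      obtain ⟨k, hk⟩ := hocof η h4
      exact hx k ⟨B, ⟨hB, η, h3, hk, h5⟩, hxB⟩
    · rintro hx k ⟨B, ⟨hB, _⟩, hxB⟩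
      have h2 : x ∈ (A i)ᶜ := by
        rw [hT3]
        exact ⟨B, hB, hxB⟩
      exact h2 hx
  -- club guessing systems
  have hap : ∀ i k, HasApprox ((C i k)ᶜ) (ζ k) := fun i k =>
    (hasApprox_sigma h (ζ k) (hζ1 k) _ (hCs i k)).compl
  choose E G hE hG hEG hEcl hEunb using hap
  -- levels
  let F : ξ.cof.ord.ToType → κ.ord.ToType → Set X := fun k b =>
    {x | ∀ k' ≤ k, ∀ i < b, x ∈ E i k' b}
  have hFanti : ∀ k k' b, k ≤ k' → F k' b ⊆ F k b :=
    fun k k' b hkk x hx k'' hk'' i hi => hx k'' (hk''.trans hkk) i hi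
  have hFs : ∀ k b, (F k b)ᶜ ∈ SigmaClass κ X (Order.succ (ζ k)) := by
    intro k b
    have heq : (F k b)ᶜ = ⋃ k' : Iic k, ⋃ i : Iio b, (E i k' b)ᶜ := by
      ext x
      simp only [F, mem_compl_iff, mem_ofPred_eq, not_forall, mem_iUnion, Subtype.exists,
        mem_Iio, mem_Iic, exists_prop]
    rw [heq]
    refine sigma_iUnion hκ ?_ ?_
    · exact (mk_set_le _).trans ((mk_L _).le.trans hcof.le)
    · rintro ⟨k', hk'⟩
      refine sigma_iUnion hκ (mk_Iio_lt b).le ?_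
      rintro ⟨i, hi⟩
      exact sigma_mono hX ((hζ1 k').trans (Order.le_succ _))
        (Order.succ_le_succ (hζm _ _ hk')) (hE i k' b)
  have hFcl : ∀ k x, ClosedL {b | x ∈ F k b} := by
    rintro k x b ⟨c, hc⟩ hlim k' hk' i hi
    apply hEcl i k' x b ⟨c, hc⟩
    intro c' hc'
    obtain ⟨d, hd1, hd2, hd3⟩ := hlim (max i c') (max_lt hi hc')
    exact ⟨d, (le_max_right _ _).trans_lt hd1, hd2,
      hd3 k' hk' i ((le_max_left _ _).trans_lt hd1)⟩
  have hFunb : ∀ x c, ∃ b, c < b ∧ ∀ k, x ∈ F k b := by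
    intro x c
    obtain ⟨b, hb1, hb2⟩ := diag_unb h (J := ξ.cof.ord.ToType) (by
      rw [mk_L]
      exact hcof) (fun k i => {b | x ∈ E i k b}) (fun k i => hEcl i k x)
      (fun k i => hEunb i k x) c
    exact ⟨b, hb1, fun k k' _ i hi => hb2 k' i hi⟩
  -- the guess at `b`
  have hrep : ∀ Q : Set κ.ord.ToType, ∃ y : Y, (∃ y' : Y, ∀ i ∈ Q, y' ∈ V i) → ∀ i ∈ Q, y ∈ V i := by
    intro Q
    by_cases hQ : ∃ y' : Y, ∀ i ∈ Q, y' ∈ V i
    · obtain ⟨y', hy'⟩ := hQ
      exact ⟨y', fun _ => hy'⟩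
    · exact ⟨y₀, fun hh => absurd hh hQ⟩
  choose rep hrep using hrep
  let H : κ.ord.ToType → X → Y := fun d x => rep {i | i < d ∧ ∀ k, x ∈ G i k d}
  have hHagree : ∀ d x y, Agree d x y → H d x = H d y := by
    intro d x y hxy
    have h2 : {i | i < d ∧ ∀ k, x ∈ G i k d} = {i | i < d ∧ ∀ k, y ∈ G i k d} := by
      ext i
      simp only [mem_ofPred_eq, hG i _ d x y hxy]
    simp only [H, h2]
  have hHclopen : ∀ d (U : Set Y), IsClopen {x | H d x ∈ U} := by
    intro d U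
    refine isClopen_of_agree (b := d) ?_
    intro x y hxy
    simp only [mem_ofPred_eq, hHagree d x y hxy]
  have hHcorrect : ∀ d x, (∀ k, x ∈ F k d) → ∀ i < d, x ∈ A i → H d x ∈ V i := by
    intro d x hx i hi hxA
    have h2 : {i | i < d ∧ ∀ k, x ∈ G i k d} = {i | i < d ∧ x ∈ A i} := by
      ext j
      simp only [mem_ofPred_eq]
      constructor
      · rintro ⟨hj, hjk⟩
        refine ⟨hj, (hCA j x).1 (fun k => ?_)⟩
        exact (hEG j k d x (hx k k le_rfl j hj)).1 (hjk k)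
      · rintro ⟨hj, hjA⟩
        refine ⟨hj, fun k => ?_⟩
        exact (hEG j k d x (hx k k le_rfl j hj)).2 ((hCA j x).2 hjA k)
    simp only [H, h2]
    exact hrep _ ⟨f x, fun j hj => hAV j x hj.2⟩ i ⟨hi, hxA⟩
  -- the last level
  let IsLast : ξ.cof.ord.ToType → κ.ord.ToType → κ.ord.ToType → X → Prop := fun k b d x =>
    d ≤ b ∧ x ∈ F k d ∧ ∀ d', d < d' → d' ≤ b → x ∉ F k d'
  have hLuniq : ∀ k b d d' x, IsLast k b d x → IsLast k b d' x → d = d' := by
    rintro k b d d' x ⟨h2, h3, h4⟩ ⟨h5, h6, h7⟩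
    rcases lt_trichotomy d d' with h8 | h8 | h8
    · exact absurd h6 (h4 d' h8 h5)
    · exact h8
    · exact absurd h3 (h7 d h8 h2)
  let g : κ.ord.ToType → ξ.cof.ord.ToType → X → Y := fun b k x =>
    if hd : ∃ d, IsLast k b d x then H hd.choose x else y₀
  have hg1 : ∀ b k x d, IsLast k b d x → g b k x = H d x := by
    intro b k x d hd
    have hex : ∃ d, IsLast k b d x := ⟨d, hd⟩
    have h2 : hex.choose = d := hLuniq k b _ _ x hex.choose_spec hd
    simp only [g, dif_pos hex, h2]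
  have hg2 : ∀ b k x, (¬ ∃ d, IsLast k b d x) → g b k x = y₀ := by
    intro b k x hd
    simp only [g, dif_neg hd]
  -- measurability of `g b k`
  have hgm : ∀ b k, g b k ∈ MeasLT κ X Y ξ := by
    intro b k
    set z := Order.succ (ζ k) with hz
    have hz1 : 1 ≤ z := (hζ1 k).trans (Order.le_succ _)
    have hzs1 : 1 ≤ Order.succ z := hz1.trans (Order.le_succ _)
    have hzs2 : 1 ≤ Order.succ (Order.succ z) := hzs1.trans (Order.le_succ _)
    have hzs3 : 1 ≤ Order.succ (Order.succ (Order.succ z)) := hzs2.trans (Order.le_succ _)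
    refine ⟨Order.succ (Order.succ (Order.succ z)), hzs3,
      hξ.succ_lt (hξ.succ_lt (hξ.succ_lt (hξ.succ_lt (hζ2 k)))), ?_⟩
    have hF2 : ∀ d, F k d ∈ SigmaClass κ X (Order.succ z) := fun d =>
      sigma_compl hκ hz1 (Order.lt_succ z) (hFs k d)
    have hLc : ∀ d, {x | IsLast k b d x}ᶜ ∈ SigmaClass κ X (Order.succ z) := by
      intro d
      by_cases hdb : d ≤ b
      · have heq : {x | IsLast k b d x}ᶜ = (F k d)ᶜ ∪ ⋃ d' : Ioc d b, F k d' := by
          ext x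
          simp only [IsLast, mem_compl_iff, mem_ofPred_eq, mem_union, mem_iUnion, Subtype.exists,
            mem_Ioc, exists_prop, hdb, true_and, not_and_or, not_forall, not_not]
          constructor
          · rintro (h2 | ⟨d', h2, h3, h4⟩)
            · exact Or.inl h2
            · exact Or.inr ⟨d', ⟨h2, h3⟩, h4⟩
          · rintro (h2 | ⟨d', ⟨h2, h3⟩, h4⟩)
            · exact Or.inl h2
            · exact Or.inr ⟨d', h2, h3, h4⟩
        rw [heq]
        refine sigma_union hκ (sigma_mono hX hz1 (Order.le_succ z) (hFs k d)) ?_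
        exact sigma_iUnion hκ ((mk_set_le _).trans (mk_L κ).le) (fun d' => hF2 d')
      · have heq : {x | IsLast k b d x}ᶜ = Set.univ := by
          ext x
          simp [IsLast, hdb]
        rw [heq]
        exact sigma_univ hX hzs1
    have hL : ∀ d, {x | IsLast k b d x} ∈ SigmaClass κ X (Order.succ (Order.succ z)) :=
      fun d => sigma_compl hκ hzs1 (Order.lt_succ _) (hLc d)
    have hN : {x | ¬ ∃ d, IsLast k b d x} ∈
        SigmaClass κ X (Order.succ (Order.succ (Order.succ z))) := by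
      refine sigma_compl hκ hzs2 (Order.lt_succ _) ?_
      have heq : {x | ¬ ∃ d, IsLast k b d x}ᶜ = ⋃ d, {x | IsLast k b d x} := by
        ext x
        simp
      rw [heq]
      exact sigma_iUnion hκ (mk_L κ).le hL
    intro U hU
    have heq : g b k ⁻¹' U = (⋃ d, ({x | IsLast k b d x} ∩ {x | H d x ∈ U})) ∪
        ({x | ¬ ∃ d, IsLast k b d x} ∩ {_x | y₀ ∈ U}) := by
      ext x
      simp only [mem_preimage, mem_union, mem_iUnion, mem_inter_iff, mem_ofPred_eq]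
      by_cases hx : ∃ d, IsLast k b d x
      · obtain ⟨d, hd⟩ := hx
        rw [hg1 b k x d hd]
        constructor
        · intro h2
          exact Or.inl ⟨d, hd, h2⟩
        · rintro (⟨d', hd', h2⟩ | ⟨h2, _⟩)
          · rw [hLuniq k b d d' x hd hd']
            exact h2
          · exact absurd ⟨d, hd⟩ h2
      · rw [hg2 b k x hx]
        constructor
        · intro h2
          exact Or.inr ⟨hx, h2⟩
        · rintro (⟨d', hd', _⟩ | ⟨_, h2⟩)
          · exact absurd ⟨d', hd'⟩ hx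
          · exact h2
    rw [heq]
    refine sigma_union hκ ?_ ?_
    · refine sigma_iUnion hκ (mk_L κ).le (fun d => ?_)
      refine sigma_inter hκ hX (sigma_mono hX hzs2 (Order.le_succ _) (hL d)) ?_
      exact sigma_mono hX le_rfl hzs3 (sigma_one.2 (hHclopen d U).isOpen)
    · refine sigma_inter hκ hX hN ?_
      by_cases hy : y₀ ∈ U
      · simp only [hy]
        exact sigma_univ hX hzs3
      · simp only [hy]
        exact sigma_empty hX hzs3
  -- convergence in `k`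
  have hconv : ∀ b x, ∃ y : Y, (∃ k₀, ∀ k, k₀ ≤ k → g b k x = y) ∧
      ∀ d ≤ b, (∀ k, x ∈ F k d) → ∃ d', d ≤ d' ∧ (∀ k, x ∈ F k d') ∧ y = H d' x := by
    intro b x
    by_cases hno : ∃ k, ∀ d ≤ b, x ∉ F k d
    · obtain ⟨k₀, hk₀⟩ := hno
      refine ⟨y₀, ⟨k₀, fun k hk => hg2 b k x ?_⟩, ?_⟩
      · rintro ⟨d, hd1, hd2, _⟩
        exact hk₀ d hd1 (hFanti k₀ k d hk hd2)
      · intro d hd hx
        exact absurd (hx k₀) (hk₀ d hd)
    · push Not at hno
      have hlast : ∀ k, ∃ d, IsLast k b d x := by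
        intro k
        obtain ⟨d₀, hd₀, hxd⟩ := hno k
        obtain ⟨d, h2, h3, h4⟩ := exists_last (hFcl k x) hd₀ hxd
        exact ⟨d, h2, h3, h4⟩
      choose D hD using hlast
      have hDanti : ∀ k k', k ≤ k' → D k' ≤ D k := by
        intro k k' hkk
        by_contra hcon
        push Not at hcon
        exact (hD k).2.2 (D k') hcon (hD k').1 (hFanti k k' _ hkk (hD k').2.1)
      obtain ⟨k₀, hk₀⟩ : ∃ k₀, ∀ k, D k₀ ≤ D k := by
        have hne2 : (range D).Nonempty := range_nonempty D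
        obtain ⟨k₀, hk₀⟩ := WellFounded.min_mem (wellFounded_lt (α := κ.ord.ToType)) _ hne2
        refine ⟨k₀, fun k => ?_⟩
        rw [hk₀]
        exact not_lt.1 (WellFounded.not_lt_min (wellFounded_lt (α := κ.ord.ToType)) (range D)
          (mem_range_self k))
      have hconst : ∀ k, k₀ ≤ k → D k = D k₀ := fun k hk =>
        le_antisymm (hDanti k₀ k hk) (hk₀ k)
      have hall : ∀ k, x ∈ F k (D k₀) := by
        intro k
        rcases le_total k₀ k with h2 | h2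
        · rw [← hconst k h2]
          exact (hD k).2.1
        · exact hFanti k k₀ _ h2 (hD k₀).2.1
      refine ⟨H (D k₀) x, ⟨k₀, fun k hk => ?_⟩, ?_⟩
      · rw [hg1 b k x (D k) (hD k), hconst k hk]
      · intro d hd hx
        refine ⟨D k₀, ?_, hall, rfl⟩
        by_contra hcon
        push Not at hcon
        exact (hD k₀).2.2 d hcon hd (hx k₀)
  choose gl hgl1 hgl2 using hconv
  refine ⟨gl, fun b => ⟨g b, hgm b, fun x => ?_⟩, fun x => ?_⟩
  · obtain ⟨k₀, hk₀⟩ := hgl1 b x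
    refine tendsto_const_nhds.congr' ?_
    rw [EventuallyEq, eventually_atTop]
    exact ⟨k₀, fun k hk => (hk₀ k hk).symm⟩
  · rw [tendsto_nhds]
    intro U hU hxU
    obtain ⟨a, ha⟩ := exists_cylS_subset hne hU hxU
    obtain ⟨i, hi, hxA⟩ := hcover x a
    obtain ⟨d, hd1, hd2⟩ := hFunb x i
    refine mem_atTop_sets.2 ⟨d, fun b hb => ha ?_⟩
    obtain ⟨d', h2, h3, h4⟩ := hgl2 b x d hb hd2
    rw [← hi, mem_preimage.symm]
    show gl b x ∈ V i
    rw [h4]
    exact hHcorrect d' x h3 i (hd1.trans_le h2) hxA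

end Main

end Pool.Agent.Helper65.GDST
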